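import Pool.Agent.Helper84.GD.Basic

/-!
# Project FQ (MP_0f6f3f_an), Lemma C: the statement

`LC ν D σ`: off a set of pairs `y` of measure `e`, for all `c, c' ≥ 0` the gaps of `ea c * σ(y₁) h σ(y₂)⁻¹ * ea c'` are those of `h` plus `c + c'`, up to an error `C` which does not depend on `h : 𝔾`.
-/

set_option autoImplicit false

open MeasureTheory

namespace Pool.Agent.Helper46.FQ

open Pool.Agent.Helper84.GDL

/-- The good pairs of Lemma C. -/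
def LCgood {𝔾 X ι : Type} [Group 𝔾] [TopologicalSpace 𝔾] [Fintype ι] [DecidableEq ι] (D : GD 𝔾 ι) (σ : X → 𝔾) (C : ℝ) (h : 𝔾) (y : X × X) : Prop :=
  ∀ c c' : ι → ℝ, (∀ i, 0 ≤ c i) → (∀ i, 0 ≤ c' i) → ∀ v, |D.mu (D.ea c * (σ y.1 * h * (σ y.2)⁻¹) * D.ea c') v - (D.mu h v + c v + c' v)| ≤ C

/-- **Lemma C.** -/
def LC {𝔾 X ι : Type} [Group 𝔾] [TopologicalSpace 𝔾] [MeasurableSpace X] [Fintype ι] [DecidableEq ι] (ν : Measure X) (D : GD 𝔾 ι) (σ : X → 𝔾) : Prop :=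
  ∀ e : ℝ, 0 < e → ∃ C : ℝ, 0 ≤ C ∧ ∀ h : 𝔾, (ν.prod ν).real {y | ¬ LCgood D σ C h y} ≤ e

end Pool.Agent.Helper46.FQ
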