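import Pool.Agent.Helper46.FQ.Rt
import Pool.Agent.Helper87.FQ.Lf

/-!
# Project FQ (MP_0f6f3f_an), piece B: the decomposition for `Aut(L)` with the block group `SS`

`Y = c ad H`, `c ≠ 0` (a matrix in the Cartan basis `b`). `DM : Qg (autC b) Y →* Mh b H` is the limit `lim a_t⁻¹ q a_t`, `a_t = exp(tY)`, `nbS = rsS ∘ DM` the block, continuous, open and surjective,
`geoS : Geo (autC b) (SS h hA H) (KS h hA H)`. `nbS_mem_KS` (a1), `nbS_ker` (a2).
-/

set_option autoImplicit false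

open Matrix Filter Topology

namespace Pool.Agent.Helper46.FQ

open Pool.Agent.Helper96.SA Pool.Agent.Helper96.TO Pool.Agent.Helper35.TZ Pool.Agent.Helper69.SLN Pool.Agent.Helper2.BC
open Pool.Agent.Helper87.FQ (Mh mem_Mh mem_Mh_iff lsub SS rsS ti ti_eq_self selfAdj_autC surjective_rsS continuous_rsS isOpenMap_rsS
  rsS_mem_KS rsS_mem_KS' exists_ker)

variable {L : Type} [LieRing L] [LieAlgebra ℝ L] {N : ℕ} {θ : L ≃ₗ⁅ℝ⁆ L} {b : Module.Basis (Fin N) ℝ L} {A : Submodule ℝ L}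

variable (h : CartanBasis θ b) (hA : MaxFlat θ A) (H : A) {Y : Mat N} {c : ℝ} (hc : c ≠ 0) (hY : Y = c • TT_to b (H : L))

include h hA hY in
theorem Y_symm : Yᵀ = Y := by
  rw [hY, transpose_smul, (TT_symm_iff_to h (H : L)).2 (hA.neg _ H.2)]

include hY in
theorem Y_mem : Y ∈ lie (autC b) := by
  rw [mem_lie]
  intro t
  rw [hY, smul_smul, ← map_smul]
  exact ex_mem_autC b _

include hc hY in
theorem comm_Y {g : Mat N} : g * Y = Y * g ↔ g * TT_to b (H : L) = TT_to b (H : L) * g := by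
  rw [hY, mul_smul_comm, smul_mul_assoc]
  constructor
  · intro e
    have e2 := congrArg (fun B : Mat N => c⁻¹ • B) e
    simp only [smul_smul, inv_mul_cancel₀ hc, one_smul] at e2
    exact e2
  · intro e
    rw [e]

/-- `q ↦ lim a_t⁻¹ q a_t`, with values in the centraliser of `H`. -/
noncomputable def DM : Qg (autC b) Y →* Mh b (H : L) where
  toFun q := ⟨Dh Y (toPg (autC b) Y q), (mem_Mh_iff h).2
    ⟨Dh_mem (selfAdj_autC h).closed (Y_mem H hY) (g := toPg (autC b) Y q) (q : autC b).2,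
      (comm_Y H hc hY).1 (Dh_commute (Y_symm h hA H hY) _)⟩⟩
  map_one' := Subtype.ext (by
    show Dh Y (toPg (autC b) Y 1) = 1
    rw [map_one, map_one])
  map_mul' q q' := Subtype.ext (by
    show Dh Y (toPg (autC b) Y (q * q')) = Dh Y (toPg (autC b) Y q) * Dh Y (toPg (autC b) Y q')
    rw [map_mul, map_mul])

theorem DM_coe (q : Qg (autC b) Y) : ((DM h hA H hc hY q : Mh b (H : L)) : GL (Fin N) ℝ) = Dh Y (toPg (autC b) Y q) := rfl

theorem continuous_DM : Continuous (DM h hA H hc hY) :=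
  ((continuous_Dh (Y_symm h hA H hY)).comp (continuous_toPg (autC b) Y)).subtype_mk _

include h hc hY in
theorem mem_Pg_of_Mh (m : Mh b (H : L)) : (m : GL (Fin N) ℝ) ∈ Pg Y :=
  mem_Pg_of_commute ((comm_Y H hc hY).2 ((mem_Mh_iff h).1 m.2).2)

/-- The centraliser of `H` is contained in the parabolic subgroup. -/
noncomputable def secM : Mh b (H : L) →* Qg (autC b) Y where
  toFun m := ⟨⟨(m : GL (Fin N) ℝ), m.2.1⟩, Subgroup.mem_subgroupOf.2 (mem_Pg_of_Mh h H hc hY m)⟩
  map_one' := rfl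
  map_mul' _ _ := rfl

theorem secM_coe (m : Mh b (H : L)) : (((secM h H hc hY m : Qg (autC b) Y) : autC b) : GL (Fin N) ℝ) = m := rfl

theorem continuous_secM : Continuous (secM h H hc hY) := by
  refine Continuous.subtype_mk ?_ _
  exact continuous_subtype_val.subtype_mk _

theorem DM_secM (m : Mh b (H : L)) : DM h hA H hc hY (secM h H hc hY m) = m := by
  apply Subtype.ext
  rw [DM_coe]
  exact Dh_of_commute _ ((comm_Y H hc hY).2 ((mem_Mh_iff h).1 m.2).2)

theorem surjective_DM : Function.Surjective (DM h hA H hc hY) := fun m => ⟨_, DM_secM h hA H hc hY m⟩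

theorem isOpenMap_DM : IsOpenMap (DM h hA H hc hY) := by
  rw [isOpenMap_iff_nhds_le]
  intro q
  -- a continuous local section through `q`
  have hs : Continuous fun m : Mh b (H : L) => secM h H hc hY (m * (DM h hA H hc hY q)⁻¹) * q :=
    ((continuous_secM h H hc hY).comp (continuous_id.mul continuous_const)).mul continuous_const
  have h1 : secM h H hc hY (DM h hA H hc hY q * (DM h hA H hc hY q)⁻¹) * q = q := by
    rw [mul_inv_cancel, map_one, one_mul]
  have h2 : Tendsto (fun m : Mh b (H : L) => secM h H hc hY (m * (DM h hA H hc hY q)⁻¹) * q) (𝓝 (DM h hA H hc hY q)) (𝓝 q) := by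
    have h3 := hs.tendsto (DM h hA H hc hY q)
    rw [h1] at h3
    exact h3
  have h3 : (fun m : Mh b (H : L) => DM h hA H hc hY (secM h H hc hY (m * (DM h hA H hc hY q)⁻¹) * q)) = id := by
    funext m
    rw [map_mul, DM_secM, inv_mul_cancel_right]
    rfl
  calc 𝓝 (DM h hA H hc hY q) = map id (𝓝 (DM h hA H hc hY q)) := Filter.map_id.symm
    _ = map (DM h hA H hc hY) (map (fun m : Mh b (H : L) => secM h H hc hY (m * (DM h hA H hc hY q)⁻¹) * q) (𝓝 (DM h hA H hc hY q))) := by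
        rw [Filter.map_map, ← h3]
        rfl
    _ ≤ map (DM h hA H hc hY) (𝓝 q) := Filter.map_mono h2

/-- **The block.** -/
noncomputable def nbS : Qg (autC b) Y →* SS h hA H := (rsS h hA H).comp (DM h hA H hc hY)

theorem nbS_apply (q : Qg (autC b) Y) : nbS h hA H hc hY q = rsS h hA H (DM h hA H hc hY q) := rfl

theorem continuous_nbS : Continuous (nbS h hA H hc hY) := (continuous_rsS h hA H).comp (continuous_DM h hA H hc hY)

theorem surjective_nbS : Function.Surjective (nbS h hA H hc hY) := (surjective_rsS h hA H).comp (surjective_DM h hA H hc hY)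

theorem isOpenMap_nbS : IsOpenMap (nbS h hA H hc hY) := (isOpenMap_rsS h hA H).comp (isOpenMap_DM h hA H hc hY)

/-- The block of an element of the centraliser of `H`. -/
theorem nbS_secM (m : Mh b (H : L)) : nbS h hA H hc hY (secM h H hc hY m) = rsS h hA H m := by
  rw [nbS_apply, DM_secM]

theorem nbS_of_commute (q : Qg (autC b) Y) (hq : ((((q : autC b) : GL (Fin N) ℝ)) : Mat N) * Y = Y * (((q : autC b) : GL (Fin N) ℝ) : Mat N)) :
    nbS h hA H hc hY q = rsS h hA H ⟨((q : autC b) : GL (Fin N) ℝ), (mem_Mh_iff h).2 ⟨(q : autC b).2, (comm_Y H hc hY).1 hq⟩⟩ := by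
  rw [nbS_apply]
  congr 1
  apply Subtype.ext
  rw [DM_coe]
  exact Dh_of_commute _ hq

/-- **(a1)** If `D(q)` is `exp(tH)` times an orthogonal matrix, then the block is orthogonal. -/
theorem nbS_mem_KS (q : Qg (autC b) Y) {t : ℝ} {u : GL (Fin N) ℝ} (hu : (u : Mat N)ᵀ * (u : Mat N) = 1)
    (hq : Dh Y (toPg (autC b) Y q) = ex (t • Y) * u) : nbS h hA H hc hY q ∈ Pool.Agent.Helper87.FQ.KS h hA H := by
  rw [nbS_apply]
  refine rsS_mem_KS' h hA H (t := t * c) (u := u) (ti_eq_self.2 hu) ?_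
  rw [DM_coe, hq, hY, smul_smul]

/-- The block of an orthogonal element is orthogonal. -/
theorem nbS_KS (q : Qg (autC b) Y) (hq : (q : autC b) ∈ KS (autC b)) : nbS h hA H hc hY q ∈ Pool.Agent.Helper87.FQ.KS h hA H := by
  refine nbS_mem_KS h hA H hc hY q (t := 0) (u := ((q : autC b) : GL (Fin N) ℝ)) hq ?_
  rw [KQ_Dh (Y_symm h hA H hY) q hq, zero_smul, ex_zero, one_mul]

/-- **(a2)** The kernel of the block. -/
theorem nbS_ker (hH : ∀ x : A, (∀ φ ∈ rootsL A, φ H = 0 → φ x = 0) → ∃ c : ℝ, x = c • H) {q : Qg (autC b) Y}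
    (hq : nbS h hA H hc hY q = 1) :
    ∃ k : Qg (autC b) Y, (k : autC b) ∈ KS (autC b) ∧ (((k : autC b) : GL (Fin N) ℝ) : Mat N) * Y = Y * (((k : autC b) : GL (Fin N) ℝ) : Mat N) ∧
      nbS h hA H hc hY k = 1 ∧ ∃ t : ℝ, Dh Y (toPg (autC b) Y q) = ((k : autC b) : GL (Fin N) ℝ) * ex (t • Y) := by
  obtain ⟨m, hm1, hm2, t, ht⟩ := exists_ker h hA H hH (g := DM h hA H hc hY q) hq
  refine ⟨secM h H hc hY m, ti_eq_self.1 hm1, (comm_Y H hc hY).2 ((mem_Mh_iff h).1 m.2).2, ?_, t * c⁻¹, ?_⟩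
  · rw [nbS_secM, hm2]
  · have e : (t * c⁻¹) • Y = t • TT_to b (H : L) := by
      rw [hY, smul_smul, mul_assoc, inv_mul_cancel₀ hc, mul_one]
    rw [e, ← DM_coe h hA H hc hY q, ht]
    rfl

/-- **The decomposition `Aut(L)⁰ = K Q` with the block group `SS`.** -/
noncomputable def geoS : Pool.Agent.Helper35.FP.Geo (autC b) (SS h hA H) (Pool.Agent.Helper87.FQ.KS h hA H) :=
  geoP (selfAdj_autC h) (Y_symm h hA H hY) (Y_mem H hY) (nbS h hA H hc hY) (continuous_nbS h hA H hc hY) (surjective_nbS h hA H hc hY)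
    (Pool.Agent.Helper87.FQ.KS h hA H) (nbS_KS h hA H hc hY)

theorem geoS_Q : (geoS h hA H hc hY).Q = Qg (autC b) Y := rfl

theorem geoS_nb : (geoS h hA H hc hY).nb = nbS h hA H hc hY := rfl

theorem geoS_K : (geoS h hA H hc hY).K = KS (autC b) := rfl

theorem geoS_r (g : autC b) : (geoS h hA H hc hY).r g = rt (selfAdj_autC h) (Y_symm h hA H hY) (Y_mem H hY) g := rfl

end Pool.Agent.Helper46.FQ
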