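import Pool.Agent.Helper45.FQ.Lat2
import Pool.Agent.Helper63.FQ.NullG
import Pool.Agent.Helper46.FQ.LCDef

/-!
# Project FQ (MP_0f6f3f_an), Lemma C (compression)

`D : GD 𝔾 ι`, `σ` the section of a lattice (`HC`). `lemC`: off a set of pairs `y` of measure `ε`, for all `c, c' ≥ 0` the gaps of `ea c * σ(y₁) h σ(y₂)⁻¹ * ea c'` are those of `h` plus `c + c'`, up to an error `C`
which does not depend on `h : 𝔾`. `size_lim`: if `g = x l y` in the cell of the node `u`, `l = k₁ ea c k₂`, then the gaps of `ea (s e_u) g ea (t e_u)` minus `(s + t) e_u` converge to `c`. `size_eq`: so `c` is the vector of the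
gaps of `h` up to `C` for `g = σ(y₁) h σ(y₂)⁻¹`, `y` good.

PROOF of `lemC`. `f_l(y, M) = (ρ_l(σ y₁) M ρ_l(σ y₂)⁻¹)_00`. For `M ≠ 0` it vanishes only on a null set (`null_coeff` and `sigma_null`), so by compactness `|f_l(y, M)| ≥ δ` for `|M| = 1` off small sets, and
`δ |ρ_l(h)| e^(top_l(c + c')) ≤ |ρ_l(ea c σ(y₁) h σ(y₂)⁻¹ ea c')| ≤ R |ρ_l(h)| e^(top_l(c + c'))`.
-/

set_option autoImplicit false
set_option linter.unusedSectionVars false

open MeasureTheory Filter Topology Matrix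

namespace Pool.Agent.Helper46.FQ

open Pool.Agent.Helper45.FQ Pool.Agent.Helper84.GDL Pool.Agent.Helper63.FQ

open scoped Matrix.Norms.L2Operator ENNReal

/-! ## Two lemmas on measures -/

section Meas

variable {Y : Type} [MeasurableSpace Y] {P : Measure Y} [IsProbabilityMeasure P]

theorem anti_small {s : ℕ → Set Y} (hs : ∀ n, MeasurableSet (s n)) (ha : Antitone s) (h0 : P (⋂ n, s n) = 0) {ε : ℝ} (hε : 0 < ε) :
    ∃ n, P.real (s n) ≤ ε := by
  have h1 : Tendsto (fun n => P (s n)) atTop (𝓝 0) := by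
    rw [← h0]
    exact tendsto_measure_iInter_atTop (fun n => (hs n).nullMeasurableSet) ha ⟨0, measure_ne_top _ _⟩
  obtain ⟨n, hn⟩ := (ENNReal.tendsto_atTop_zero.1 h1) (ENNReal.ofReal ε) (ENNReal.ofReal_pos.2 hε)
  exact ⟨n, ENNReal.toReal_le_of_le_ofReal hε.le (hn n le_rfl)⟩

theorem small_of_ne {F : Y → ℝ} (hF : Measurable F) (h0 : P {y | F y = 0} = 0) {ε : ℝ} (hε : 0 < ε) :
    ∃ η : ℝ, 0 < η ∧ P.real {y | |F y| < η} ≤ ε := by
  have hs : ∀ n : ℕ, MeasurableSet {y | |F y| < 1 / ((n : ℝ) + 1)} := fun n => measurableSet_lt hF.abs measurable_const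
  have ha : Antitone fun n : ℕ => {y | |F y| < 1 / ((n : ℝ) + 1)} := by
    intro m n hmn y hy
    have hy' : |F y| < 1 / ((n : ℝ) + 1) := hy
    refine lt_of_lt_of_le hy' ?_
    exact one_div_le_one_div_of_le (by positivity) (by
      have : (m : ℝ) ≤ n := by exact_mod_cast hmn
      linarith)
  obtain ⟨n, hn⟩ := anti_small (P := P) hs ha (by
    refine measure_mono_null ?_ h0
    intro y hy
    by_contra hne
    have h1 : 0 < |F y| := abs_pos.2 hne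
    obtain ⟨n, hn⟩ := exists_nat_one_div_lt h1
    have h2 := Set.mem_iInter.1 hy n
    exact absurd h2 (not_lt.2 hn.le)) hε
  exact ⟨_, by positivity, hn⟩

theorem tail_small {F : Y → ℝ} (hF : Measurable F) {ε : ℝ} (hε : 0 < ε) : ∃ R : ℝ, 1 ≤ R ∧ P.real {y | R < F y} ≤ ε := by
  have hs : ∀ n : ℕ, MeasurableSet {y | (n : ℝ) + 1 < F y} := fun n => measurableSet_lt measurable_const hF
  have ha : Antitone fun n : ℕ => {y | (n : ℝ) + 1 < F y} := by
    intro m n hmn y hy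
    have hy' : (n : ℝ) + 1 < F y := hy
    refine lt_of_le_of_lt ?_ hy'
    have : (m : ℝ) ≤ n := by exact_mod_cast hmn
    linarith
  obtain ⟨n, hn⟩ := anti_small (P := P) hs ha (by
    have h1 : (⋂ n : ℕ, {y | (n : ℝ) + 1 < F y}) = (∅ : Set Y) := by
      rw [Set.eq_empty_iff_forall_notMem]
      intro y hy
      obtain ⟨n, hn⟩ := exists_nat_ge (F y)
      have h2 : (n : ℝ) + 1 < F y := Set.mem_iInter.1 hy n
      linarith
    rw [h1, measure_empty]) hε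
  refine ⟨_, ?_, hn⟩
  have : (0 : ℝ) ≤ n := Nat.cast_nonneg n
  linarith

end Meas

variable {𝔾 X Λ ι : Type} [Group 𝔾] [TopologicalSpace 𝔾] [IsTopologicalGroup 𝔾] [SecondCountableTopology 𝔾]
  [LocallyCompactSpace 𝔾] [T2Space 𝔾] [MeasurableSpace 𝔾] [BorelSpace 𝔾] [MeasurableSpace X] [MulAction 𝔾 X] [Group Λ]
  [Fintype ι] [DecidableEq ι] {ν : Measure X} [IsProbabilityMeasure ν] {a : 𝔾 → X → Λ} {j : Λ →* 𝔾} {hm : Measure 𝔾} {σ : X → 𝔾}

/-- The law of the section is absolutely continuous. -/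
theorem sigma_null (h : HC ν a j hm σ) {B : Set 𝔾} (hB : MeasurableSet B) (h0 : hm B = 0) : ν {y | σ y ∈ B} = 0 := by
  have i1 : hm.IsHaarMeasure := h.haar
  have i2 : hm.IsInvInvariant := h.inv
  obtain ⟨x⟩ : Nonempty X := by
    by_contra hn
    rw [not_nonempty_iff] at hn
    have h1 : ν Set.univ = 1 := measure_univ
    rw [Set.univ_eq_empty_iff.2 hn, measure_empty] at h1
    exact zero_ne_one h1
  obtain ⟨c, hc⟩ : ∃ c, c = σ x * j 1 := ⟨_, rfl⟩
  have hcm : Measurable fun g : 𝔾 => g⁻¹ * c := by fun_prop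
  have hBc : MeasurableSet {g : 𝔾 | g⁻¹ * c ∈ B} := hcm hB
  have h1 := h.fib x 1 ({g : 𝔾 | g⁻¹ * c ∈ B}.indicator 1) (measurable_one.indicator hBc)
  have h2 : hm {g : 𝔾 | g⁻¹ * c ∈ B} = 0 := by
    have e : {g : 𝔾 | g⁻¹ * c ∈ B} = (fun g : 𝔾 => c⁻¹ * g) ⁻¹' (Inv.inv ⁻¹' B) := by
      ext g
      show g⁻¹ * c ∈ B ↔ (c⁻¹ * g)⁻¹ ∈ B
      rw [_root_.mul_inv_rev, inv_inv]
    rw [e, measure_preimage_mul, Measure.measure_preimage_inv, h0]
  have h3 : ∫⁻ g, {g : 𝔾 | a g (g⁻¹ • x) = 1}.indicator ({g : 𝔾 | g⁻¹ * c ∈ B}.indicator 1) g ∂hm ≤ 0 := by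
    calc ∫⁻ g, {g : 𝔾 | a g (g⁻¹ • x) = 1}.indicator ({g : 𝔾 | g⁻¹ * c ∈ B}.indicator (1 : 𝔾 → ℝ≥0∞)) g ∂hm
        ≤ ∫⁻ g, {g : 𝔾 | g⁻¹ * c ∈ B}.indicator (1 : 𝔾 → ℝ≥0∞) g ∂hm := lintegral_mono fun g => Set.indicator_le_self _ _ g
      _ = 0 := by rw [lintegral_indicator_one hBc, h2]
  rw [h1] at h3
  have h4 : ∫⁻ y, {g : 𝔾 | g⁻¹ * c ∈ B}.indicator (1 : 𝔾 → ℝ≥0∞) (σ x * j 1 * (σ y)⁻¹) ∂ν = ν {y | σ y ∈ B} := by
    have e0 : ν {y | σ y ∈ B} = ∫⁻ y, (σ ⁻¹' B).indicator (1 : X → ℝ≥0∞) y ∂ν := (lintegral_indicator_one (h.ms hB)).symm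
    rw [e0]
    refine lintegral_congr fun y => ?_
    have e : (σ x * j 1 * (σ y)⁻¹)⁻¹ * c = σ y := by
      rw [hc]
      group
    by_cases hy : σ y ∈ B
    · rw [Set.indicator_of_mem (show σ x * j 1 * (σ y)⁻¹ ∈ {g : 𝔾 | g⁻¹ * c ∈ B} by
        show (σ x * j 1 * (σ y)⁻¹)⁻¹ * c ∈ B
        rw [e]
        exact hy), Set.indicator_of_mem (show y ∈ σ ⁻¹' B from hy)]
      rfl
    · rw [Set.indicator_of_notMem (show ¬ σ x * j 1 * (σ y)⁻¹ ∈ {g : 𝔾 | g⁻¹ * c ∈ B} by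
        intro hcon
        apply hy
        have h5 : (σ x * j 1 * (σ y)⁻¹)⁻¹ * c ∈ B := hcon
        rwa [e] at h5), Set.indicator_of_notMem (show ¬ y ∈ σ ⁻¹' B from hy)]
  rw [h4] at h3
  exact le_antisymm h3 bot_le

variable (D : GD 𝔾 ι)

/-- Nonzero matrix coefficients vanish only on null sets. -/
theorem null_dot [hm.IsHaarMeasure] (hG : ∀ H : Subgroup 𝔾, IsOpen (H : Set 𝔾) → H = ⊤) {l : ι}
    (hirr : ∀ W : Submodule ℝ (Fin (D.d l + 1) → ℝ), (∀ g : 𝔾, ∀ w ∈ W, D.rho l g *ᵥ w ∈ W) → W = ⊥ ∨ W = ⊤)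
    {v w : Fin (D.d l + 1) → ℝ} (hv : v ≠ 0) (hw : w ≠ 0) : hm {g : 𝔾 | w ⬝ᵥ (D.rho l g *ᵥ v) = 0} = 0 := by
  let φ : (Fin (D.d l + 1) → ℝ) →ₗ[ℝ] ℝ :=
    { toFun := fun x => w ⬝ᵥ x
      map_add' := fun x y => dotProduct_add _ _ _
      map_smul' := fun c x => by rw [dotProduct_smul]; rfl }
  have hφ : φ ≠ 0 := by
    intro h0
    apply hw
    have h1 : w ⬝ᵥ w = 0 := by
      have h2 := LinearMap.congr_fun h0 w
      exact h2
    exact dotProduct_self_eq_zero.1 h1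
  exact null_coeff hm hG (rhoV D l) (fun v => by
    have h1 : (fun g => rhoV D l g v) = fun g => D.rho l g *ᵥ v := rfl
    rw [h1]
    exact (D.rho_cont l).matrix_mulVec continuous_const) (fun W hW => hirr W fun g w hw => hW g hw) hv hφ

theorem measurable_rho_entry (l : ι) (i i' : Fin (D.d l + 1)) : Measurable fun g : 𝔾 => D.rho l g i i' :=
  ((D.rho_cont l).matrix_elem i i').measurable

theorem measurable_dot (l : ι) (v w : Fin (D.d l + 1) → ℝ) : Measurable fun g : 𝔾 => w ⬝ᵥ (D.rho l g *ᵥ v) := by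
  have h1 : Continuous fun g : 𝔾 => w ⬝ᵥ (D.rho l g *ᵥ v) :=
    continuous_const.dotProduct ((D.rho_cont l).matrix_mulVec continuous_const)
  exact h1.measurable

/-- `f_l(y, M)` -/
noncomputable def fe (σ : X → 𝔾) (l : ι) (M : Matrix (Fin (D.d l + 1)) (Fin (D.d l + 1)) ℝ) (y : X × X) : ℝ :=
  (D.rho l (σ y.1) * M * D.rho l (σ y.2)⁻¹) 0 0

theorem measurable_fe (hσ : Measurable σ) (l : ι) (M : Matrix (Fin (D.d l + 1)) (Fin (D.d l + 1)) ℝ) : Measurable (fe D σ l M) := by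
  have h1 : Continuous fun p : 𝔾 × 𝔾 => (D.rho l p.1 * M * D.rho l p.2⁻¹) 0 0 :=
    ((((D.rho_cont l).comp continuous_fst).matrix_mul continuous_const).matrix_mul ((D.rho_cont l).comp (continuous_inv.comp continuous_snd))).matrix_elem 0 0
  exact h1.measurable.comp ((hσ.comp measurable_fst).prodMk (hσ.comp measurable_snd))

theorem null_fe (h : HC ν a j hm σ) (hG : ∀ H : Subgroup 𝔾, IsOpen (H : Set 𝔾) → H = ⊤) {l : ι}
    (hirr : ∀ W : Submodule ℝ (Fin (D.d l + 1) → ℝ), (∀ g : 𝔾, ∀ w ∈ W, D.rho l g *ᵥ w ∈ W) → W = ⊥ ∨ W = ⊤)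
    {M : Matrix (Fin (D.d l + 1)) (Fin (D.d l + 1)) ℝ} (hM : M ≠ 0) : (ν.prod ν) {y | fe D σ l M y = 0} = 0 := by
  have i1 : hm.IsHaarMeasure := h.haar
  have i2 : hm.IsInvInvariant := h.inv
  have hs : MeasurableSet {y : X × X | fe D σ l M y = 0} := measurable_fe D h.ms l M (measurableSet_singleton 0)
  have he : (Pi.single 0 1 : Fin (D.d l + 1) → ℝ) ≠ 0 := by
    intro h0
    have h1 := congrFun h0 0
    rw [Pi.single_eq_same, Pi.zero_apply] at h1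
    exact one_ne_zero h1
  obtain ⟨q, hq⟩ : ∃ q, M *ᵥ (Pi.single q 1) ≠ 0 := by
    by_contra hcon
    push Not at hcon
    apply hM
    ext i q
    have h1 := congrFun (hcon q) i
    rw [Matrix.mulVec_single_one] at h1
    exact h1
  have hA : ∀ᵐ x ∂ν, (Pi.single 0 1 : Fin (D.d l + 1) → ℝ) ⬝ᵥ (D.rho l (σ x) *ᵥ (M *ᵥ Pi.single q 1)) ≠ 0 := by
    rw [ae_iff]
    have h1 := sigma_null h ((measurable_dot D l (M *ᵥ Pi.single q 1) (Pi.single 0 1)) (measurableSet_singleton 0)) (null_dot D hG hirr hq he)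
    refine measure_mono_null ?_ h1
    intro x hx
    exact not_not.1 hx
  rw [Measure.measure_prod_null hs]
  filter_upwards [hA] with x hx
  show ν {x' | fe D σ l M (x, x') = 0} = 0
  obtain ⟨w, hw⟩ : ∃ w : Fin (D.d l + 1) → ℝ, w = fun k => (D.rho l (σ x) * M) 0 k := ⟨_, rfl⟩
  have hw0 : w ≠ 0 := by
    intro h0
    apply hx
    have h1 := congrFun h0 q
    rw [hw] at h1
    rw [single_dotProduct, one_mul, Matrix.mulVec_mulVec, Matrix.mulVec_single_one]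
    exact h1
  have h1 : hm {g : 𝔾 | w ⬝ᵥ (D.rho l g⁻¹ *ᵥ (Pi.single 0 1)) = 0} = 0 := by
    have e : {g : 𝔾 | w ⬝ᵥ (D.rho l g⁻¹ *ᵥ (Pi.single 0 1)) = 0} = Inv.inv ⁻¹' {g : 𝔾 | w ⬝ᵥ (D.rho l g *ᵥ (Pi.single 0 1)) = 0} := rfl
    rw [e, Measure.measure_preimage_inv]
    exact null_dot D hG hirr he hw0
  have hms : MeasurableSet {g : 𝔾 | w ⬝ᵥ (D.rho l g⁻¹ *ᵥ (Pi.single 0 1)) = 0} :=
    ((measurable_dot D l (Pi.single 0 1) w).comp measurable_inv) (measurableSet_singleton 0)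
  refine measure_mono_null ?_ (sigma_null h hms h1)
  intro x' hx'
  show w ⬝ᵥ (D.rho l (σ x')⁻¹ *ᵥ (Pi.single 0 1)) = 0
  have h2 : fe D σ l M (x, x') = 0 := hx'
  rw [fe, Matrix.mul_apply] at h2
  rw [Matrix.mulVec_single_one, dotProduct, hw]
  exact h2

theorem abs_entry_le {n : ℕ} (M : Matrix (Fin (n + 1)) (Fin (n + 1)) ℝ) : |M 0 0| ≤ ‖M‖ := by
  have h3 := Matrix.l2_opNorm_mulVec M (PiLp.single 2 (0 : Fin (n + 1)) (1 : ℝ) : EuclideanSpace ℝ (Fin (n + 1)))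
  rw [PiLp.norm_single, norm_one, mul_one] at h3
  refine le_trans ?_ h3
  refine le_trans (le_of_eq ?_) (PiLp.norm_apply_le _ (0 : Fin (n + 1)))
  rw [Real.norm_eq_abs]
  congr 1
  simp

/-- `|ρ_l(σ y₁)| |ρ_l(σ y₂)⁻¹|` -/
noncomputable def nn (σ : X → 𝔾) (l : ι) (y : X × X) : ℝ := ‖D.rho l (σ y.1)‖ * ‖D.rho l (σ y.2)⁻¹‖

theorem measurable_nn (hσ : Measurable σ) (l : ι) : Measurable (nn D σ l) := by
  have hc : Continuous fun g : 𝔾 => ‖D.rho l g‖ := (D.rho_cont l).norm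
  have h1 : Measurable fun y : X × X => ‖D.rho l (σ y.1)‖ := (hc.measurable.comp hσ).comp measurable_fst
  have h2 : Measurable fun y : X × X => ‖D.rho l (σ y.2)⁻¹‖ := ((hc.measurable.comp measurable_inv).comp hσ).comp measurable_snd
  exact h1.mul h2

theorem fe_near (l : ι) (M0 M : Matrix (Fin (D.d l + 1)) (Fin (D.d l + 1)) ℝ) (y : X × X) {R η : ℝ} (hR : 0 < R) (h : nn D σ l y ≤ R)
    (hM : ‖M0 - M‖ ≤ η / (2 * R)) : |fe D σ l M0 y| ≤ |fe D σ l M y| + η / 2 := by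
  have e1 : fe D σ l M0 y = fe D σ l M y + (D.rho l (σ y.1) * (M0 - M) * D.rho l (σ y.2)⁻¹) 0 0 := by
    rw [fe, fe, ← Matrix.add_apply, ← Matrix.add_mul, ← Matrix.mul_add, add_sub_cancel]
  have e3 : ‖D.rho l (σ y.1) * (M0 - M) * D.rho l (σ y.2)⁻¹‖ ≤ ‖D.rho l (σ y.1)‖ * ‖M0 - M‖ * ‖D.rho l (σ y.2)⁻¹‖ :=
    (norm_mul_le _ _).trans (mul_le_mul_of_nonneg_right (norm_mul_le _ _) (norm_nonneg _))
  have e4 : ‖D.rho l (σ y.1)‖ * ‖M0 - M‖ * ‖D.rho l (σ y.2)⁻¹‖ = nn D σ l y * ‖M0 - M‖ := by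
    rw [nn]
    ring
  have e5 : nn D σ l y * ‖M0 - M‖ ≤ R * (η / (2 * R)) := mul_le_mul h hM (norm_nonneg _) hR.le
  have e6 : R * (η / (2 * R)) = η / 2 := by field_simp
  have e7 := abs_entry_le (D.rho l (σ y.1) * (M0 - M) * D.rho l (σ y.2)⁻¹)
  rw [e1]
  refine (abs_add_le _ _).trans ?_
  linarith

/-- **Uniformity in the matrix.** -/
theorem unif_fe (h : HC ν a j hm σ) (hG : ∀ H : Subgroup 𝔾, IsOpen (H : Set 𝔾) → H = ⊤) {l : ι}
    (hirr : ∀ W : Submodule ℝ (Fin (D.d l + 1) → ℝ), (∀ g : 𝔾, ∀ w ∈ W, D.rho l g *ᵥ w ∈ W) → W = ⊥ ∨ W = ⊤)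
    {ε : ℝ} (hε : 0 < ε) : ∃ δ : ℝ, 0 < δ ∧ ∀ M : Matrix (Fin (D.d l + 1)) (Fin (D.d l + 1)) ℝ, ‖M‖ = 1 →
      (ν.prod ν).real {y | |fe D σ l M y| < δ} ≤ ε := by
  have hS : IsCompact (Metric.sphere (0 : Matrix (Fin (D.d l + 1)) (Fin (D.d l + 1)) ℝ) 1) := isCompact_sphere _ _
  have key : ∃ δ : ℝ, 0 < δ ∧ ∀ M ∈ Metric.sphere (0 : Matrix (Fin (D.d l + 1)) (Fin (D.d l + 1)) ℝ) 1,
      (ν.prod ν).real {y | |fe D σ l M y| < δ} ≤ ε := by
    refine hS.induction_on (p := fun T => ∃ δ : ℝ, 0 < δ ∧ ∀ M ∈ T, (ν.prod ν).real {y | |fe D σ l M y| < δ} ≤ ε) ?_ ?_ ?_ ?_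
    · exact ⟨1, one_pos, fun M hM => absurd hM (Set.notMem_empty M)⟩
    · rintro s t hst ⟨δ, hδ, h1⟩
      exact ⟨δ, hδ, fun M hM => h1 M (hst hM)⟩
    · rintro s t ⟨δ, hδ, h1⟩ ⟨δ', hδ', h1'⟩
      refine ⟨min δ δ', lt_min hδ hδ', ?_⟩
      rintro M (hM | hM)
      · refine le_trans (measureReal_mono fun y hy => ?_) (h1 M hM)
        have hy' : |fe D σ l M y| < min δ δ' := hy
        exact lt_of_lt_of_le hy' (min_le_left _ _)
      · refine le_trans (measureReal_mono fun y hy => ?_) (h1' M hM)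
        have hy' : |fe D σ l M y| < min δ δ' := hy
        exact lt_of_lt_of_le hy' (min_le_right _ _)
    · intro M0 hM0
      have hne : M0 ≠ 0 := by
        intro h0
        rw [h0, mem_sphere_zero_iff_norm, norm_zero] at hM0
        exact zero_ne_one hM0
      obtain ⟨η, hη, h1⟩ := small_of_ne (P := ν.prod ν) (measurable_fe D h.ms l M0) (null_fe D h hG hirr hne) (half_pos hε)
      obtain ⟨R, hR, h2⟩ := tail_small (P := ν.prod ν) (measurable_nn D h.ms l) (half_pos hε)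
      have hR0 : 0 < R := by linarith
      refine ⟨Metric.ball M0 (η / (2 * R)), mem_nhdsWithin_of_mem_nhds (Metric.ball_mem_nhds _ (by positivity)), η / 2, by positivity, fun M hM => ?_⟩
      have hsub : {y | |fe D σ l M y| < η / 2} ⊆ {y | |fe D σ l M0 y| < η} ∪ {y | R < nn D σ l y} := by
        intro y hy
        by_contra hcon
        simp only [Set.mem_union, Set.mem_ofPred_eq, not_or, not_lt] at hcon
        obtain ⟨c1, c2⟩ := hcon
        have e5 : ‖M0 - M‖ ≤ η / (2 * R) := by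
          rw [← dist_eq_norm, dist_comm]
          exact (Metric.mem_ball.1 hM).le
        have e4 := fe_near D l M0 M y hR0 c2 e5
        have e6 : |fe D σ l M y| < η / 2 := hy
        linarith
      calc (ν.prod ν).real {y | |fe D σ l M y| < η / 2}
          ≤ (ν.prod ν).real ({y | |fe D σ l M0 y| < η} ∪ {y | R < nn D σ l y}) := measureReal_mono hsub
        _ ≤ (ν.prod ν).real {y | |fe D σ l M0 y| < η} + (ν.prod ν).real {y | R < nn D σ l y} :=
            measureReal_union_le _ _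
        _ ≤ ε := by linarith
  obtain ⟨δ, hδ, h1⟩ := key
  exact ⟨δ, hδ, fun M hM => h1 M (mem_sphere_zero_iff_norm.2 hM)⟩

/-- The irreducibility of all node representations. -/
def Irr : Prop := ∀ (l : ι) (W : Submodule ℝ (Fin (D.d l + 1) → ℝ)), (∀ g : 𝔾, ∀ w ∈ W, D.rho l g *ᵥ w ∈ W) → W = ⊥ ∨ W = ⊤

/-- Lower and upper bounds of the norms. -/
theorem tw_bounds {l : ι} {c c' : ι → ℝ} (hc : ∀ i, 0 ≤ c i) (hc' : ∀ i, 0 ≤ c' i) {h g : 𝔾} {δ R : ℝ} (hδ : 0 < δ) (hR : 1 ≤ R)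
    (h1 : δ * ‖D.rho l h‖ ≤ |D.rho l g 0 0|) (h2 : ‖D.rho l g‖ ≤ R * ‖D.rho l h‖) :
    |D.tw l (D.ea c * g * D.ea c') - (D.tw l h + ∑ i, D.top l i * (c i + c' i))| ≤ |Real.log δ| + Real.log R := by
  have hh : 0 < ‖D.rho l h‖ := by
    rw [D.norm_rho]
    exact Real.exp_pos _
  have hR0 : 0 < R := by linarith
  have hsum : ∑ i, D.top l i * (c i + c' i) = ∑ i, D.top l i * c i + ∑ i, D.top l i * c' i := by
    rw [← Finset.sum_add_distrib]
    exact Finset.sum_congr rfl fun i _ => by ring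
  have hlogR : 0 ≤ Real.log R := Real.log_nonneg hR
  -- upper bound
  have u1 : D.tw l (D.ea c * g * D.ea c') ≤ D.tw l (D.ea c) + D.tw l g + D.tw l (D.ea c') :=
    (D.tw_mul_le l _ _).trans (add_le_add (D.tw_mul_le l _ _) le_rfl)
  have u2 : ∀ c : ι → ℝ, (∀ i, 0 ≤ c i) → D.tw l (D.ea c) = ∑ i, D.top l i * c i := by
    intro c hc
    rw [D.tw_eq, D.norm_ea hc, Real.log_exp]
  have u3 : D.tw l g ≤ Real.log R + D.tw l h := by
    rw [D.tw_eq, D.tw_eq, ← Real.log_mul hR0.ne' hh.ne']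
    refine Real.log_le_log ?_ h2
    rw [D.norm_rho]
    exact Real.exp_pos _
  rw [u2 c hc, u2 c' hc'] at u1
  -- lower bound
  have l1 : Real.exp (∑ i, D.top l i * c i) * (δ * ‖D.rho l h‖) * Real.exp (∑ i, D.top l i * c' i) ≤ ‖D.rho l (D.ea c * g * D.ea c')‖ := by
    refine le_trans ?_ (abs_entry_le _)
    have e : D.rho l (D.ea c * g * D.ea c') 0 0 =
        Real.exp (∑ i, D.top l i * c i) * D.rho l g 0 0 * Real.exp (∑ i, D.top l i * c' i) := by
      rw [map_mul, map_mul, D.rho_ea, D.rho_ea, Matrix.mul_diagonal, Matrix.diagonal_mul]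
      have e1 : ∀ c : ι → ℝ, ∑ i, (D.top l i - D.n l 0 i) * c i = ∑ i, D.top l i * c i := fun c =>
        Finset.sum_congr rfl fun i _ => by rw [D.n_zero, Nat.cast_zero, sub_zero]
      rw [e1, e1]
    rw [e, abs_mul, abs_mul, Real.abs_exp, Real.abs_exp]
    gcongr
  have l2 : ∑ i, D.top l i * c i + (Real.log δ + D.tw l h) + ∑ i, D.top l i * c' i ≤ D.tw l (D.ea c * g * D.ea c') := by
    rw [D.tw_eq l (D.ea c * g * D.ea c'), D.tw_eq l h]
    have l3 := Real.log_le_log (by positivity) l1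
    rw [Real.log_mul (by positivity) (by positivity), Real.log_mul (by positivity) (by positivity), Real.log_mul hδ.ne' hh.ne', Real.log_exp,
      Real.log_exp] at l3
    exact l3
  have l4 := neg_abs_le (Real.log δ)
  have l5 := abs_nonneg (Real.log δ)
  rw [abs_le, hsum]
  constructor <;> linarith

/-- **Lemma C.** -/
theorem lemC (h : HC ν a j hm σ) (hG : ∀ H : Subgroup 𝔾, IsOpen (H : Set 𝔾) → H = ⊤) (hirr : Irr D) : LC ν D σ := by
  intro e he
  by_cases hι : Fintype.card ι = 0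
  · have hem : IsEmpty ι := Fintype.card_eq_zero_iff.1 hι
    refine ⟨0, le_rfl, fun g => ?_⟩
    have h1 : {y : X × X | ¬ LCgood D σ 0 g y} = ∅ := by
      rw [Set.eq_empty_iff_forall_notMem]
      intro y hy
      exact hy fun c c' _ _ v => (hem.false v).elim
    rw [h1, measureReal_empty]
    exact he.le
  have hcard : (0 : ℝ) < Fintype.card ι := by exact_mod_cast Nat.pos_of_ne_zero hι
  obtain ⟨ε, hε, hεe⟩ : ∃ ε : ℝ, 0 < ε ∧ Fintype.card ι * (2 * ε) = e := ⟨e / (2 * Fintype.card ι), by positivity, by field_simp⟩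
  choose δ hδ hδ' using fun l => unif_fe D h hG (hirr l) hε
  choose R hR hR' using fun l => tail_small (P := ν.prod ν) (measurable_nn D h.ms l) hε
  obtain ⟨T, hT⟩ : ∃ T : ι → ℝ, T = fun l => |Real.log (δ l)| + Real.log (R l) := ⟨_, rfl⟩
  have hT0 : ∀ l, 0 ≤ T l := fun l => by
    rw [hT]
    exact add_nonneg (abs_nonneg _) (Real.log_nonneg (hR l))
  refine ⟨∑ v, ∑ l, |D.C v l| * T l, Finset.sum_nonneg fun v _ => Finset.sum_nonneg fun l _ => mul_nonneg (abs_nonneg _) (hT0 l), fun g => ?_⟩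
  -- the bad set
  have hM : ∀ l, ‖(‖D.rho l g‖⁻¹ • D.rho l g : Matrix (Fin (D.d l + 1)) (Fin (D.d l + 1)) ℝ)‖ = 1 := by
    intro l
    have h1 : 0 < ‖D.rho l g‖ := by
      rw [D.norm_rho]
      exact Real.exp_pos _
    rw [norm_smul, norm_inv, norm_norm, inv_mul_cancel₀ h1.ne']
  have hsub : {y : X × X | ¬ LCgood D σ (∑ v, ∑ l, |D.C v l| * T l) g y} ⊆
      ⋃ l ∈ (Finset.univ : Finset ι), ({y | |fe D σ l (‖D.rho l g‖⁻¹ • D.rho l g) y| < δ l} ∪ {y | R l < nn D σ l y}) := by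
    intro y hy
    by_contra hcon
    simp only [Set.mem_iUnion, Finset.mem_univ, exists_prop, true_and, not_exists, Set.mem_union, Set.mem_ofPred_eq, not_or, not_lt] at hcon
    apply hy
    intro c c' hc hc' v
    have key : ∀ l, |D.tw l (D.ea c * (σ y.1 * g * (σ y.2)⁻¹) * D.ea c') - (D.tw l g + ∑ i, D.top l i * (c i + c' i))| ≤ T l := by
      intro l
      obtain ⟨c1, c2⟩ := hcon l
      have h1 : 0 < ‖D.rho l g‖ := by
        rw [D.norm_rho]
        exact Real.exp_pos _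
      rw [hT]
      refine tw_bounds D hc hc' (hδ l) (hR l) ?_ ?_
      · have e1 : D.rho l (σ y.1 * g * (σ y.2)⁻¹) 0 0 = ‖D.rho l g‖ * fe D σ l (‖D.rho l g‖⁻¹ • D.rho l g) y := by
          rw [fe, Matrix.mul_smul, Matrix.smul_mul, Matrix.smul_apply, smul_eq_mul, ← mul_assoc, mul_inv_cancel₀ h1.ne', one_mul, map_mul, map_mul]
        rw [e1, abs_mul, abs_of_pos h1, mul_comm]
        exact mul_le_mul_of_nonneg_left c1 h1.le
      · rw [map_mul, map_mul]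
        calc ‖D.rho l (σ y.1) * D.rho l g * D.rho l (σ y.2)⁻¹‖ ≤ ‖D.rho l (σ y.1)‖ * ‖D.rho l g‖ * ‖D.rho l (σ y.2)⁻¹‖ :=
              (norm_mul_le _ _).trans (mul_le_mul_of_nonneg_right (norm_mul_le _ _) (norm_nonneg _))
          _ = nn D σ l y * ‖D.rho l g‖ := by
              rw [nn]
              ring
          _ ≤ R l * ‖D.rho l g‖ := mul_le_mul_of_nonneg_right c2 h1.le
    have e1 : D.mu (D.ea c * (σ y.1 * g * (σ y.2)⁻¹) * D.ea c') v - (D.mu g v + c v + c' v) =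
        ∑ l, D.C v l * (D.tw l (D.ea c * (σ y.1 * g * (σ y.2)⁻¹) * D.ea c') - (D.tw l g + ∑ i, D.top l i * (c i + c' i))) := by
      have e2 : c v + c' v = ∑ l, D.C v l * ∑ i, D.top l i * (c i + c' i) := (D.C_top (fun i => c i + c' i) v).symm
      rw [add_assoc, e2, D.mu_eq, D.mu_eq g, ← Finset.sum_add_distrib, ← Finset.sum_sub_distrib]
      exact Finset.sum_congr rfl fun l _ => by ring
    rw [e1]
    refine (Finset.abs_sum_le_sum_abs _ _).trans ?_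
    refine le_trans (Finset.sum_le_sum fun l _ => ?_) (Finset.single_le_sum (f := fun v => ∑ l, |D.C v l| * T l)
      (fun v _ => Finset.sum_nonneg fun l _ => mul_nonneg (abs_nonneg _) (hT0 l)) (Finset.mem_univ v))
    rw [abs_mul]
    exact mul_le_mul_of_nonneg_left (key l) (abs_nonneg _)
  calc (ν.prod ν).real {y : X × X | ¬ LCgood D σ (∑ v, ∑ l, |D.C v l| * T l) g y}
      ≤ (ν.prod ν).real (⋃ l ∈ (Finset.univ : Finset ι), ({y | |fe D σ l (‖D.rho l g‖⁻¹ • D.rho l g) y| < δ l} ∪ {y | R l < nn D σ l y})) :=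
        measureReal_mono hsub (measure_ne_top _ _)
    _ ≤ ∑ l : ι, (ν.prod ν).real ({y | |fe D σ l (‖D.rho l g‖⁻¹ • D.rho l g) y| < δ l} ∪ {y | R l < nn D σ l y}) := measureReal_biUnion_finset_le _ _
    _ ≤ ∑ l : ι, 2 * ε := Finset.sum_le_sum fun l _ => (measureReal_union_le _ _).trans (by linarith [hδ' l _ (hM l), hR' l])
    _ = e := by rw [Finset.sum_const, Finset.card_univ, nsmul_eq_mul, hεe]

end Pool.Agent.Helper46.FQ
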