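import Pool.Agent.Helper96.SA.Pol
import Pool.Agent.Helper35.FP.Defs

/-!
# Project FQ (MP_0f6f3f_an), piece B: the parabolic subgroup of a symmetric element

`H = Hᵀ` is a symmetric matrix, `a_t = exp(tH)`. `cj H t g = a_t⁻¹ g a_t`. `Pg H`: the elements `g` of `GL(N, ℝ)` such that `a_t⁻¹ g a_t` converges as `t → ∞`,
`Dh H` is the limit, a continuous homomorphism.
-/

set_option autoImplicit false

open Matrix Filter Topology

namespace Pool.Agent.Helper46.FQ

open Pool.Agent.Helper96.SA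

variable {N : ℕ}

/-! ## Generalities -/

open scoped MatrixOrder in
theorem pd_uniq {A B : Mat N} (hA : A.PosDef) (hB : B.PosDef) (h : A * A = B * B) : A = B := by
  have hA2 : 0 ≤ A := hA.posSemidef.nonneg
  have hB2 : 0 ≤ B := hB.posSemidef.nonneg
  exact (CFC.mul_self_eq_mul_self_iff A B).1 h

theorem exists_diag {H : Mat N} (hs : Hᵀ = H) :
    ∃ (U : Mat N) (h : Fin N → ℝ), Uᵀ * U = 1 ∧ U * Uᵀ = 1 ∧ H = U * diagonal h * Uᵀ := by
  have hH : H.IsHermitian := by
    show Hᴴ = H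
    rw [conjTranspose_eq_transpose_of_trivial, hs]
  refine ⟨hH.eigenvectorUnitary, hH.eigenvalues, ?_, ?_, ?_⟩
  · have := Unitary.coe_star_mul_self hH.eigenvectorUnitary
    rw [Matrix.star_eq_conjTranspose, conjTranspose_eq_transpose_of_trivial] at this
    exact this
  · have := Unitary.coe_mul_star_self hH.eigenvectorUnitary
    rw [Unitary.coe_star, Matrix.star_eq_conjTranspose, conjTranspose_eq_transpose_of_trivial] at this
    exact this
  · have := hH.spectral_theorem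
    rw [Unitary.conjStarAlgAut_apply, Matrix.star_eq_conjTranspose,
      conjTranspose_eq_transpose_of_trivial] at this
    exact this

/-- `a_t⁻¹ g a_t` -/
noncomputable def cj (H : Mat N) (t : ℝ) (g : GL (Fin N) ℝ) : GL (Fin N) ℝ := (ex (t • H))⁻¹ * g * ex (t • H)

theorem cj_mul (H : Mat N) (t : ℝ) (g g' : GL (Fin N) ℝ) : cj H t (g * g') = cj H t g * cj H t g' := by
  unfold cj
  group

theorem cj_one (H : Mat N) (t : ℝ) : cj H t 1 = 1 := by
  unfold cj
  group

theorem cj_inv (H : Mat N) (t : ℝ) (g : GL (Fin N) ℝ) : cj H t g⁻¹ = (cj H t g)⁻¹ := by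
  unfold cj
  group

theorem cj_add (H : Mat N) (s t : ℝ) (g : GL (Fin N) ℝ) : cj H (s + t) g = cj H s (cj H t g) := by
  unfold cj
  rw [add_comm s t, ex_add_smul, _root_.mul_inv_rev]
  simp only [mul_assoc]

theorem cj_zero (H : Mat N) (g : GL (Fin N) ℝ) : cj H 0 g = g := by
  unfold cj
  rw [zero_smul, ex_zero, inv_one, one_mul, mul_one]

theorem continuous_cj (H : Mat N) (t : ℝ) : Continuous (cj H t) := by
  unfold cj
  fun_prop

theorem cj_of_commute {H : Mat N} {g : GL (Fin N) ℝ} (h : (g : Mat N) * H = H * (g : Mat N)) (t : ℝ) : cj H t g = g := by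
  have h1 : g * ex (t • H) = ex (t • H) * g := ex_commute (by rw [mul_smul_comm, smul_mul_assoc, h])
  unfold cj
  rw [mul_assoc, h1, inv_mul_cancel_left]

theorem cj_mem {G : Subgroup (GL (Fin N) ℝ)} {H : Mat N} (hH : H ∈ lie G) (t : ℝ) {g : GL (Fin N) ℝ} (hg : g ∈ G) :
    cj H t g ∈ G :=
  G.mul_mem (G.mul_mem (G.inv_mem (mem_lie.1 hH t)) hg) (mem_lie.1 hH t)

theorem det_cj (H : Mat N) (t : ℝ) (g : GL (Fin N) ℝ) : ((cj H t g : GL (Fin N) ℝ) : Mat N).det = (g : Mat N).det := by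
  have h : (cj H t g).det = g.det := by
    unfold cj
    rw [map_mul, map_mul, map_inv, mul_comm, mul_inv_cancel_left]
  have h2 := congrArg Units.val h
  exact h2

/-! ## The parabolic subgroup -/

/-- The elements `g` such that `a_t⁻¹ g a_t` converges as `t → ∞`. -/
noncomputable def Pg (H : Mat N) : Subgroup (GL (Fin N) ℝ) where
  carrier := {g | ∃ d, Tendsto (fun t : ℝ => cj H t g) atTop (𝓝 d)}
  one_mem' := ⟨1, by simp only [cj_one]; exact tendsto_const_nhds⟩
  mul_mem' := by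
    rintro a b ⟨d, hd⟩ ⟨e, he⟩
    exact ⟨d * e, by simp only [cj_mul]; exact hd.mul he⟩
  inv_mem' := by
    rintro a ⟨d, hd⟩
    exact ⟨d⁻¹, by simp only [cj_inv]; exact hd.inv⟩

/-- The limit of `a_t⁻¹ g a_t`. -/
noncomputable def Dh (H : Mat N) : Pg H →* GL (Fin N) ℝ where
  toFun g := g.2.choose
  map_one' := by
    refine tendsto_nhds_unique (1 : Pg H).2.choose_spec ?_
    have h : (fun t : ℝ => cj H t ((1 : Pg H) : GL (Fin N) ℝ)) = fun _ => 1 := by
      funext t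
      exact cj_one H t
    rw [h]
    exact tendsto_const_nhds
  map_mul' := by
    intro a b
    refine tendsto_nhds_unique (a * b).2.choose_spec ?_
    have h : (fun t : ℝ => cj H t ((a * b : Pg H) : GL (Fin N) ℝ)) = fun t => cj H t (a : GL (Fin N) ℝ) * cj H t (b : GL (Fin N) ℝ) := by
      funext t
      exact cj_mul H t _ _
    rw [h]
    exact a.2.choose_spec.mul b.2.choose_spec

theorem Dh_spec (H : Mat N) (g : Pg H) : Tendsto (fun t : ℝ => cj H t (g : GL (Fin N) ℝ)) atTop (𝓝 (Dh H g)) :=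
  g.2.choose_spec

theorem Dh_eq {H : Mat N} {g : Pg H} {d : GL (Fin N) ℝ} (h : Tendsto (fun t : ℝ => cj H t (g : GL (Fin N) ℝ)) atTop (𝓝 d)) :
    Dh H g = d :=
  tendsto_nhds_unique (Dh_spec H g) h

theorem mem_Pg_of_commute {H : Mat N} {g : GL (Fin N) ℝ} (h : (g : Mat N) * H = H * (g : Mat N)) : g ∈ Pg H :=
  ⟨g, by simp only [cj_of_commute h]; exact tendsto_const_nhds⟩

theorem Dh_of_commute {H : Mat N} (g : Pg H) (h : ((g : GL (Fin N) ℝ) : Mat N) * H = H * ((g : GL (Fin N) ℝ) : Mat N)) :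
    Dh H g = g := by
  refine Dh_eq ?_
  simp only [cj_of_commute h]
  exact tendsto_const_nhds

/-- `D(g) ∈ G` for `g ∈ G`, if `G` is closed. -/
theorem Dh_mem {G : Subgroup (GL (Fin N) ℝ)} (hG : IsClosed (G : Set (GL (Fin N) ℝ))) {H : Mat N} (hH : H ∈ lie G)
    {g : Pg H} (hg : (g : GL (Fin N) ℝ) ∈ G) : Dh H g ∈ G :=
  hG.mem_of_tendsto (Dh_spec H g) (Eventually.of_forall fun t => cj_mem hH t hg)

theorem cj_Dh (H : Mat N) (g : Pg H) (t : ℝ) : cj H t (Dh H g) = Dh H g := by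
  have h1 : Tendsto (fun s : ℝ => cj H t (cj H s (g : GL (Fin N) ℝ))) atTop (𝓝 (cj H t (Dh H g))) :=
    ((continuous_cj H t).tendsto _).comp (Dh_spec H g)
  have h2 : Tendsto (fun s : ℝ => cj H (t + s) (g : GL (Fin N) ℝ)) atTop (𝓝 (Dh H g)) :=
    (Dh_spec H g).comp (tendsto_atTop_add_const_left atTop t tendsto_id)
  refine tendsto_nhds_unique h1 ?_
  simpa only [cj_add] using h2

theorem Dh_commute_ex (H : Mat N) (g : Pg H) (t : ℝ) : Dh H g * ex (t • H) = ex (t • H) * Dh H g := by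
  have h := cj_Dh H g t
  unfold cj at h
  rw [mul_assoc, inv_mul_eq_iff_eq_mul] at h
  exact h

theorem Dh_mem_Pg (H : Mat N) (g : Pg H) : Dh H g ∈ Pg H :=
  ⟨Dh H g, by simp only [cj_Dh]; exact tendsto_const_nhds⟩

theorem Dh_Dh (H : Mat N) (g : Pg H) : Dh H ⟨Dh H g, Dh_mem_Pg H g⟩ = Dh H g := by
  refine Dh_eq ?_
  simp only [cj_Dh]
  exact tendsto_const_nhds

/-! ## Coordinates -/

theorem cj_coe {H U : Mat N} {h : Fin N → ℝ} (hU1 : Uᵀ * U = 1) (hU2 : U * Uᵀ = 1) (hH : H = U * diagonal h * Uᵀ)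
    (t : ℝ) (g : GL (Fin N) ℝ) (i j : Fin N) :
    (Uᵀ * ((cj H t g : GL (Fin N) ℝ) : Mat N) * U) i j = Real.exp (t * (h j - h i)) * (Uᵀ * (g : Mat N) * U) i j := by
  have e : ∀ s : ℝ, (ex (s • H) : Mat N) = U * diagonal (fun i => Real.exp (s * h i)) * Uᵀ := by
    intro s
    have hsm : s • H = U * diagonal (fun i => s * h i) * Uᵀ := by
      rw [hH, ← smul_mul_assoc, ← mul_smul_comm, ← diagonal_smul]
      rfl
    rw [ex_coe, hsm, exp_diag U hU1 hU2]
  have e1 : ((ex (t • H))⁻¹ : GL (Fin N) ℝ) = ex ((-t) • H) := by rw [neg_smul, ex_neg]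
  have e2 : Uᵀ * ((cj H t g : GL (Fin N) ℝ) : Mat N) * U =
      diagonal (fun i => Real.exp (-t * h i)) * (Uᵀ * (g : Mat N) * U) * diagonal (fun i => Real.exp (t * h i)) := by
    unfold cj
    rw [e1, Units.val_mul, Units.val_mul, e, e]
    calc Uᵀ * (U * diagonal (fun i => Real.exp (-t * h i)) * Uᵀ * (g : Mat N) * (U * diagonal (fun i => Real.exp (t * h i)) * Uᵀ)) * U
        = (Uᵀ * U) * diagonal (fun i => Real.exp (-t * h i)) * (Uᵀ * (g : Mat N) * U) * diagonal (fun i => Real.exp (t * h i)) * (Uᵀ * U) := by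
          simp only [mul_assoc]
      _ = _ := by rw [hU1, one_mul, mul_one]
  rw [e2, mul_diagonal, diagonal_mul]
  have e3 : Real.exp (t * (h j - h i)) = Real.exp (-t * h i) * Real.exp (t * h j) := by
    rw [← Real.exp_add]
    congr 1
    ring
  rw [e3]
  ring

theorem back {U : Mat N} (hU2 : U * Uᵀ = 1) (A : Mat N) : U * (Uᵀ * A * U) * Uᵀ = A := by
  calc U * (Uᵀ * A * U) * Uᵀ = (U * Uᵀ) * A * (U * Uᵀ) := by simp only [mul_assoc]
    _ = A := by rw [hU2, one_mul, mul_one]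

theorem back' {U : Mat N} (hU1 : Uᵀ * U = 1) (A : Mat N) : Uᵀ * (U * A * Uᵀ) * U = A := by
  calc Uᵀ * (U * A * Uᵀ) * U = (Uᵀ * U) * A * (Uᵀ * U) := by simp only [mul_assoc]
    _ = A := by rw [hU1, one_mul, mul_one]

/-- the block diagonal part -/
noncomputable def bd (h : Fin N → ℝ) (A : Mat N) : Mat N := Matrix.of fun i j => if h i = h j then A i j else 0

theorem bd_apply (h : Fin N → ℝ) (A : Mat N) (i j : Fin N) : bd h A i j = if h i = h j then A i j else 0 := rfl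

theorem continuous_bd (h : Fin N → ℝ) : Continuous (bd h) := by
  refine continuous_matrix fun i j => ?_
  simp only [bd_apply]
  split_ifs
  · exact continuous_id.matrix_elem i j
  · exact continuous_const

theorem tendsto_of_zero {H U : Mat N} {h : Fin N → ℝ} (hU1 : Uᵀ * U = 1) (hU2 : U * Uᵀ = 1) (hH : H = U * diagonal h * Uᵀ)
    {g : GL (Fin N) ℝ} (hz : ∀ i j, h i < h j → (Uᵀ * (g : Mat N) * U) i j = 0) :
    Tendsto (fun t : ℝ => ((cj H t g : GL (Fin N) ℝ) : Mat N)) atTop (𝓝 (U * bd h (Uᵀ * (g : Mat N) * U) * Uᵀ)) := by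
  have h1 : Tendsto (fun t : ℝ => Uᵀ * ((cj H t g : GL (Fin N) ℝ) : Mat N) * U) atTop (𝓝 (bd h (Uᵀ * (g : Mat N) * U))) := by
    refine tendsto_pi_nhds.2 fun i => tendsto_pi_nhds.2 fun j => ?_
    simp only [cj_coe hU1 hU2 hH]
    rw [bd_apply]
    rcases lt_trichotomy (h i) (h j) with hij | hij | hij
    · rw [if_neg hij.ne, hz i j hij]
      simp only [mul_zero]
      exact tendsto_const_nhds
    · rw [if_pos hij]
      simp only [hij, sub_self, mul_zero, Real.exp_zero, one_mul]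
      exact tendsto_const_nhds
    · rw [if_neg hij.ne']
      have h2 : Tendsto (fun t : ℝ => Real.exp (t * (h j - h i))) atTop (𝓝 0) := by
        refine Real.tendsto_exp_atBot.comp ?_
        exact tendsto_id.atTop_mul_const_of_neg (by linarith)
      have h3 := h2.mul_const ((Uᵀ * (g : Mat N) * U) i j)
      rw [zero_mul] at h3
      exact h3
  have h2 : Continuous fun A : Mat N => U * A * Uᵀ := by fun_prop
  have h3 := (h2.tendsto _).comp h1
  refine h3.congr fun t => ?_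
  exact back hU2 _

theorem mem_Pg_iff {H U : Mat N} {h : Fin N → ℝ} (hU1 : Uᵀ * U = 1) (hU2 : U * Uᵀ = 1) (hH : H = U * diagonal h * Uᵀ)
    {g : GL (Fin N) ℝ} : g ∈ Pg H ↔ ∀ i j, h i < h j → (Uᵀ * (g : Mat N) * U) i j = 0 := by
  constructor
  · rintro ⟨d, hd⟩ i j hij
    have h1 : Continuous fun x : GL (Fin N) ℝ => (Uᵀ * (x : Mat N) * U) i j := by
      have h2 : Continuous fun A : Mat N => Uᵀ * A * U := by fun_prop
      exact (h2.comp Units.continuous_val).matrix_elem i j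
    have h2 := (h1.tendsto d).comp hd
    have h3 : Tendsto (fun t : ℝ => Real.exp (t * (h j - h i)) * (Uᵀ * (g : Mat N) * U) i j) atTop
        (𝓝 ((Uᵀ * (d : Mat N) * U) i j)) := by
      refine h2.congr fun t => ?_
      exact cj_coe hU1 hU2 hH t g i j
    have h4 : Tendsto (fun t : ℝ => Real.exp (-(t * (h j - h i)))) atTop (𝓝 0) := by
      refine Real.tendsto_exp_neg_atTop_nhds_zero.comp ?_
      exact tendsto_id.atTop_mul_const (by linarith)
    have h5 := h4.mul h3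
    rw [zero_mul] at h5
    have h6 : (fun t : ℝ => Real.exp (-(t * (h j - h i))) * (Real.exp (t * (h j - h i)) * (Uᵀ * (g : Mat N) * U) i j)) =
        fun _ => (Uᵀ * (g : Mat N) * U) i j := by
      funext t
      rw [← mul_assoc, ← Real.exp_add, neg_add_cancel, Real.exp_zero, one_mul]
    rw [h6] at h5
    exact tendsto_nhds_unique tendsto_const_nhds h5
  · intro hz
    have h1 := tendsto_of_zero hU1 hU2 hH hz
    have h2 : (U * bd h (Uᵀ * (g : Mat N) * U) * Uᵀ).det = (g : Mat N).det := by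
      have h3 : Continuous fun A : Mat N => A.det := continuous_id.matrix_det
      have h4 := (h3.tendsto _).comp h1
      have h5 : ((fun A : Mat N => A.det) ∘ fun t : ℝ => ((cj H t g : GL (Fin N) ℝ) : Mat N)) = fun _ => (g : Mat N).det := by
        funext t
        exact det_cj H t g
      rw [h5] at h4
      exact tendsto_nhds_unique h4 tendsto_const_nhds
    have h3 : IsUnit (g : Mat N).det := (Matrix.isUnit_iff_isUnit_det _).1 g.isUnit
    rw [← h2, ← Matrix.isUnit_iff_isUnit_det] at h3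
    obtain ⟨d, hd⟩ := h3
    refine ⟨d, isEmbedding_val.tendsto_nhds_iff.2 ?_⟩
    show Tendsto _ atTop (𝓝 (d : Mat N))
    rw [hd]
    exact h1

/-- `D(g)` in coordinates. -/
theorem Dh_coe {H U : Mat N} {h : Fin N → ℝ} (hU1 : Uᵀ * U = 1) (hU2 : U * Uᵀ = 1) (hH : H = U * diagonal h * Uᵀ)
    (g : Pg H) : ((Dh H g : GL (Fin N) ℝ) : Mat N) = U * bd h (Uᵀ * ((g : GL (Fin N) ℝ) : Mat N) * U) * Uᵀ := by
  have h1 := tendsto_of_zero hU1 hU2 hH ((mem_Pg_iff hU1 hU2 hH).1 g.2)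
  exact tendsto_nhds_unique ((Units.continuous_val.tendsto _).comp (Dh_spec H g)) h1

theorem isClosed_Pg {H : Mat N} (hs : Hᵀ = H) : IsClosed (Pg H : Set (GL (Fin N) ℝ)) := by
  obtain ⟨U, h, hU1, hU2, hH⟩ := exists_diag hs
  have h1 : (Pg H : Set (GL (Fin N) ℝ)) = ⋂ (i : Fin N) (j : Fin N) (_ : h i < h j),
      {g : GL (Fin N) ℝ | (Uᵀ * (g : Mat N) * U) i j = 0} := by
    ext g
    simp only [SetLike.mem_coe, mem_Pg_iff hU1 hU2 hH, Set.mem_iInter, Set.mem_ofPred_eq]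
  rw [h1]
  refine isClosed_iInter fun i => isClosed_iInter fun j => isClosed_iInter fun _ => ?_
  refine isClosed_eq ?_ continuous_const
  have h2 : Continuous fun A : Mat N => Uᵀ * A * U := by fun_prop
  exact (h2.comp Units.continuous_val).matrix_elem i j

theorem continuous_Dh {H : Mat N} (hs : Hᵀ = H) : Continuous (Dh H) := by
  obtain ⟨U, h, hU1, hU2, hH⟩ := exists_diag hs
  refine isEmbedding_val.continuous_iff.2 ?_
  have h1 : (fun g : GL (Fin N) ℝ => (g : Mat N)) ∘ (Dh H) =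
      fun g : Pg H => U * bd h (Uᵀ * ((g : GL (Fin N) ℝ) : Mat N) * U) * Uᵀ := by
    funext g
    exact Dh_coe hU1 hU2 hH g
  rw [h1]
  have h2 : Continuous fun A : Mat N => U * bd h (Uᵀ * A * U) * Uᵀ := by
    have h3 : Continuous fun A : Mat N => Uᵀ * A * U := by fun_prop
    have h4 : Continuous fun A : Mat N => U * A * Uᵀ := by fun_prop
    exact h4.comp ((continuous_bd h).comp h3)
  exact h2.comp (Units.continuous_val.comp continuous_subtype_val)

theorem commute_of_zero {H U : Mat N} {h : Fin N → ℝ} (hU1 : Uᵀ * U = 1) (hU2 : U * Uᵀ = 1) (hH : H = U * diagonal h * Uᵀ)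
    {A : Mat N} (hz : ∀ i j, h i ≠ h j → (Uᵀ * A * U) i j = 0) : A * H = H * A := by
  have h1 : (Uᵀ * A * U) * diagonal h = diagonal h * (Uᵀ * A * U) := by
    ext i j
    rw [mul_diagonal, diagonal_mul]
    by_cases hij : h i = h j
    · rw [hij, mul_comm]
    · rw [hz i j hij, zero_mul, mul_zero]
  calc A * H = (U * (Uᵀ * A * U) * Uᵀ) * (U * diagonal h * Uᵀ) := by rw [back hU2, ← hH]
    _ = U * ((Uᵀ * A * U) * (Uᵀ * U) * diagonal h) * Uᵀ := by simp only [mul_assoc]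
    _ = U * ((Uᵀ * A * U) * diagonal h) * Uᵀ := by rw [hU1, mul_one]
    _ = U * (diagonal h * (Uᵀ * A * U)) * Uᵀ := by rw [h1]
    _ = U * (diagonal h * (Uᵀ * U) * (Uᵀ * A * U)) * Uᵀ := by rw [hU1, mul_one]
    _ = (U * diagonal h * Uᵀ) * (U * (Uᵀ * A * U) * Uᵀ) := by simp only [mul_assoc]
    _ = H * A := by rw [back hU2, ← hH]

/-- `D(g)` commutes with `H`. -/
theorem Dh_commute {H : Mat N} (hs : Hᵀ = H) (g : Pg H) :
    ((Dh H g : GL (Fin N) ℝ) : Mat N) * H = H * ((Dh H g : GL (Fin N) ℝ) : Mat N) := by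
  obtain ⟨U, h, hU1, hU2, hH⟩ := exists_diag hs
  refine commute_of_zero hU1 hU2 hH fun i j hij => ?_
  rw [Dh_coe hU1 hU2 hH g, back' hU1, bd_apply, if_neg hij]

/-- An orthogonal element of `Pg H` commutes with `H`. -/
theorem orth_commute {H : Mat N} (hs : Hᵀ = H) {g : GL (Fin N) ℝ} (hg : g ∈ Pg H) (ho : (g : Mat N)ᵀ * (g : Mat N) = 1) :
    (g : Mat N) * H = H * (g : Mat N) := by
  obtain ⟨U, h, hU1, hU2, hH⟩ := exists_diag hs
  have h1 : ((g⁻¹ : GL (Fin N) ℝ) : Mat N) = (g : Mat N)ᵀ := by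
    have h2 : (g : Mat N)ᵀ * ((g : Mat N) * ((g⁻¹ : GL (Fin N) ℝ) : Mat N)) = ((g⁻¹ : GL (Fin N) ℝ) : Mat N) := by
      rw [← mul_assoc, ho, one_mul]
    rw [Units.mul_inv, mul_one] at h2
    exact h2.symm
  have h2 := (mem_Pg_iff hU1 hU2 hH).1 hg
  have h3 := (mem_Pg_iff hU1 hU2 hH).1 ((Pg H).inv_mem hg)
  refine commute_of_zero hU1 hU2 hH fun i j hij => ?_
  rcases lt_or_gt_of_ne hij with hij | hij
  · exact h2 i j hij
  · have h4 := h3 j i hij
    rw [h1] at h4
    have h5 : (Uᵀ * (g : Mat N)ᵀ * U) = (Uᵀ * (g : Mat N) * U)ᵀ := by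
      rw [transpose_mul, transpose_mul, transpose_transpose, mul_assoc]
    rw [h5, transpose_apply] at h4
    exact h4

end Pool.Agent.Helper46.FQ
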