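import Pool.Agent.Helper46.FQ.Par

/-!
# Project FQ (MP_0f6f3f_an), piece B: the decomposition `G = K Q`

`G` is a self-adjoint group (`SelfAdj`), `H = Hᵀ` in its Lie algebra, `Qg G H = G ∩ Pg H`, `KS G` the orthogonal elements of `G`. Every `g` in `G` is `k r` with a unique
`r = rt g` in `Qg G H` such that `k` is orthogonal and `D(r)` is symmetric and positive definite; `rt` is continuous.

PROOF. `g a_n = k_n p_n` (polar decomposition), `r_n = k_n⁻¹ g`, so that `a_(n/2)⁻¹ r_n a_(n/2) = a_(n/2)⁻¹ p_n a_(n/2)⁻¹` is symmetric and positive definite; its entry `(i, j)` is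
`exp(n (h_j - h_i) / 2) (r_n)_ij`. If `k_n → k`, then `r_n → r = k⁻¹ g`, `r_ij = 0` for `h_i < h_j` and `a_(n/2)⁻¹ r_n a_(n/2) → D(r)`.
-/

set_option autoImplicit false

open Matrix Filter Topology

namespace Pool.Agent.Helper46.FQ

open Pool.Agent.Helper96.SA

variable {N : ℕ}

theorem lim_of_compact {ι X : Type} [TopologicalSpace X] {K : Set X} (hK : IsCompact K) (u : Ultrafilter ι) (f : ι → X)
    (hf : ∀ i, f i ∈ K) : ∃ x ∈ K, Tendsto f u (𝓝 x) := by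
  have hf' : K ∈ u.map f := by
    rw [Ultrafilter.mem_map]
    exact Filter.univ_mem' hf
  obtain ⟨x, hx, h⟩ := hK.ultrafilter_le_nhds' (u.map f) hf'
  exact ⟨x, hx, h⟩

/-! ## Orthogonal elements -/

theorem isCompact_orth : IsCompact {g : GL (Fin N) ℝ | (g : Mat N)ᵀ * (g : Mat N) = 1} := by
  rw [isEmbedding_val.isCompact_iff]
  have h1 : (fun g : GL (Fin N) ℝ => (g : Mat N)) '' {g : GL (Fin N) ℝ | (g : Mat N)ᵀ * (g : Mat N) = 1} =
      {A : Mat N | Aᵀ * A = 1} := by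
    ext A
    constructor
    · rintro ⟨g, hg, rfl⟩
      exact hg
    · intro hA
      have h2 : IsUnit A := by
        rw [Matrix.isUnit_iff_isUnit_det]
        have h3 : A.det * A.det = 1 := by
          have h4 := congrArg Matrix.det hA
          rw [det_mul, det_transpose, det_one] at h4
          exact h4
        exact IsUnit.of_mul_eq_one _ h3
      obtain ⟨g, rfl⟩ := h2
      exact ⟨g, hA, rfl⟩
  rw [h1]
  have h2 : IsCompact (Set.pi Set.univ fun _ : Fin N => Set.pi Set.univ fun _ : Fin N => Set.Icc (-1 : ℝ) 1) :=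
    isCompact_univ_pi fun _ => isCompact_univ_pi fun _ => isCompact_Icc
  have h3 : IsClosed {A : Mat N | Aᵀ * A = 1} := by
    refine isClosed_eq ?_ continuous_const
    fun_prop
  refine h2.of_isClosed_subset h3 ?_
  intro A hA i _ j _
  have h4 : ∑ l, A l j * A l j = 1 := by
    have h5 := congrFun (congrFun hA j) j
    rw [mul_apply, one_apply_eq] at h5
    simpa only [transpose_apply] using h5
  have h5 : A i j * A i j ≤ 1 := by
    rw [← h4]
    exact Finset.single_le_sum (f := fun l => A l j * A l j) (fun l _ => mul_self_nonneg _) (Finset.mem_univ i)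
  exact ⟨by nlinarith, by nlinarith⟩

/-- The orthogonal elements of `G`. -/
def KS (G : Subgroup (GL (Fin N) ℝ)) : Subgroup G where
  carrier := {k | ((k : GL (Fin N) ℝ) : Mat N)ᵀ * ((k : GL (Fin N) ℝ) : Mat N) = 1}
  one_mem' := by
    show (((1 : G) : GL (Fin N) ℝ) : Mat N)ᵀ * (((1 : G) : GL (Fin N) ℝ) : Mat N) = 1
    rw [Subgroup.coe_one, Units.val_one, transpose_one, one_mul]
  mul_mem' := by
    intro a b ha hb
    show (((a * b : G) : GL (Fin N) ℝ) : Mat N)ᵀ * (((a * b : G) : GL (Fin N) ℝ) : Mat N) = 1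
    rw [Subgroup.coe_mul, Units.val_mul, transpose_mul, mul_assoc, ← mul_assoc (((a : GL (Fin N) ℝ) : Mat N)ᵀ), ha, one_mul, hb]
  inv_mem' := by
    intro a ha
    have ha' : ((a : GL (Fin N) ℝ) : Mat N)ᵀ * ((a : GL (Fin N) ℝ) : Mat N) = 1 := ha
    have h1 : (((a : GL (Fin N) ℝ)⁻¹ : GL (Fin N) ℝ) : Mat N) = ((a : GL (Fin N) ℝ) : Mat N)ᵀ := by
      have h2 : ((a : GL (Fin N) ℝ) : Mat N)ᵀ * (((a : GL (Fin N) ℝ) : Mat N) * (((a : GL (Fin N) ℝ)⁻¹ : GL (Fin N) ℝ) : Mat N)) =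
          (((a : GL (Fin N) ℝ)⁻¹ : GL (Fin N) ℝ) : Mat N) := by
        rw [← mul_assoc, ha', one_mul]
      rw [Units.mul_inv, mul_one] at h2
      exact h2.symm
    show (((a⁻¹ : G) : GL (Fin N) ℝ) : Mat N)ᵀ * (((a⁻¹ : G) : GL (Fin N) ℝ) : Mat N) = 1
    rw [Subgroup.coe_inv, h1, transpose_transpose, ← h1, Units.mul_inv]

theorem mem_KS {G : Subgroup (GL (Fin N) ℝ)} {k : G} :
    k ∈ KS G ↔ ((k : GL (Fin N) ℝ) : Mat N)ᵀ * ((k : GL (Fin N) ℝ) : Mat N) = 1 := Iff.rfl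

theorem isCompact_KS {G : Subgroup (GL (Fin N) ℝ)} (hG : IsClosed (G : Set (GL (Fin N) ℝ))) : IsCompact (KS G : Set G) := by
  rw [Topology.IsEmbedding.subtypeVal.isCompact_iff]
  have h1 : (Subtype.val '' (KS G : Set G) : Set (GL (Fin N) ℝ)) =
      {g : GL (Fin N) ℝ | (g : Mat N)ᵀ * (g : Mat N) = 1} ∩ G := by
    ext g
    constructor
    · rintro ⟨k, hk, rfl⟩
      exact ⟨hk, k.2⟩
    · rintro ⟨h1, h2⟩
      exact ⟨⟨g, h2⟩, h1, rfl⟩
  rw [h1]
  exact isCompact_orth.inter_right hG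

/-! ## The parabolic subgroup of `G` -/

/-- The parabolic subgroup of `G`. -/
noncomputable def Qg (G : Subgroup (GL (Fin N) ℝ)) (H : Mat N) : Subgroup G := (Pg H).subgroupOf G

/-- The inclusion of `Qg G H` in `Pg H`. -/
noncomputable def toPg (G : Subgroup (GL (Fin N) ℝ)) (H : Mat N) : Qg G H →* Pg H where
  toFun q := ⟨((q : G) : GL (Fin N) ℝ), Subgroup.mem_subgroupOf.1 q.2⟩
  map_one' := rfl
  map_mul' _ _ := rfl

theorem toPg_coe {G : Subgroup (GL (Fin N) ℝ)} {H : Mat N} (q : Qg G H) : ((toPg G H q : Pg H) : GL (Fin N) ℝ) = ((q : G) : GL (Fin N) ℝ) := rfl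

theorem continuous_toPg (G : Subgroup (GL (Fin N) ℝ)) (H : Mat N) : Continuous (toPg G H) :=
  (continuous_subtype_val.comp continuous_subtype_val).subtype_mk _

theorem isClosed_Qg (G : Subgroup (GL (Fin N) ℝ)) {H : Mat N} (hs : Hᵀ = H) : IsClosed (Qg G H : Set G) :=
  (isClosed_Pg hs).preimage continuous_subtype_val

/-- `D` as a homomorphism of `Qg G H` to `G`. -/
noncomputable def DG {G : Subgroup (GL (Fin N) ℝ)} (hG : IsClosed (G : Set (GL (Fin N) ℝ))) {H : Mat N} (hH : H ∈ lie G) : Qg G H →* G where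
  toFun q := ⟨Dh H (toPg G H q), Dh_mem hG hH (g := toPg G H q) (q : G).2⟩
  map_one' := Subtype.ext (by
    show Dh H (toPg G H 1) = 1
    rw [map_one, map_one])
  map_mul' a b := Subtype.ext (by
    show Dh H (toPg G H (a * b)) = Dh H (toPg G H a) * Dh H (toPg G H b)
    rw [map_mul, map_mul])

theorem DG_coe {G : Subgroup (GL (Fin N) ℝ)} (hG : IsClosed (G : Set (GL (Fin N) ℝ))) {H : Mat N} (hH : H ∈ lie G) (q : Qg G H) :
    ((DG hG hH q : G) : GL (Fin N) ℝ) = Dh H (toPg G H q) := rfl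

theorem continuous_DG {G : Subgroup (GL (Fin N) ℝ)} (hG : IsClosed (G : Set (GL (Fin N) ℝ))) {H : Mat N} (hs : Hᵀ = H) (hH : H ∈ lie G) :
    Continuous (DG hG hH) :=
  ((continuous_Dh hs).comp (continuous_toPg G H)).subtype_mk _

/-- An orthogonal element of the parabolic subgroup commutes with `H`. -/
theorem KQ_commute {G : Subgroup (GL (Fin N) ℝ)} {H : Mat N} (hs : Hᵀ = H) (q : Qg G H) (hq : (q : G) ∈ KS G) :
    (((q : G) : GL (Fin N) ℝ) : Mat N) * H = H * (((q : G) : GL (Fin N) ℝ) : Mat N) :=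
  orth_commute hs (toPg G H q).2 hq

theorem KQ_Dh {G : Subgroup (GL (Fin N) ℝ)} {H : Mat N} (hs : Hᵀ = H) (q : Qg G H) (hq : (q : G) ∈ KS G) :
    Dh H (toPg G H q) = ((q : G) : GL (Fin N) ℝ) :=
  Dh_of_commute (toPg G H q) (KQ_commute hs q hq)

theorem KQ_DG {G : Subgroup (GL (Fin N) ℝ)} (hG : IsClosed (G : Set (GL (Fin N) ℝ))) {H : Mat N} (hs : Hᵀ = H) (hH : H ∈ lie G)
    (q : Qg G H) (hq : (q : G) ∈ KS G) : DG hG hH q = q :=
  Subtype.ext (KQ_Dh hs q hq)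

/-! ## Existence of the decomposition -/

theorem posSemidef_of_tendsto {ι : Type} {u : Filter ι} [u.NeBot] {A : ι → Mat N} {B : Mat N} (hA : ∀ i, (A i).PosDef)
    (h : Tendsto A u (𝓝 B)) : B.PosSemidef := by
  have h1 : B.IsHermitian := by
    show Bᴴ = B
    rw [conjTranspose_eq_transpose_of_trivial]
    have h2 : Tendsto (fun i => (A i)ᵀ) u (𝓝 Bᵀ) := by
      have h3 : Continuous fun A : Mat N => Aᵀ := by fun_prop
      exact (h3.tendsto _).comp h
    have h4 : (fun i => (A i)ᵀ) = A := by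
      funext i
      have h5 : (A i)ᴴ = A i := (hA i).1
      rw [conjTranspose_eq_transpose_of_trivial] at h5
      exact h5
    rw [h4] at h2
    exact tendsto_nhds_unique h2 h
  refine Matrix.PosSemidef.of_dotProduct_mulVec_nonneg h1 fun x => ?_
  have h2 : Continuous fun A : Mat N => star x ⬝ᵥ (A *ᵥ x) := by fun_prop
  refine ge_of_tendsto ((h2.tendsto _).comp h) (Eventually.of_forall fun i => ?_)
  exact (hA i).posSemidef.dotProduct_mulVec_nonneg x

theorem exp_posDef {X : Mat N} (hX : Xᵀ = X) {B : GL (Fin N) ℝ} (hB : (B : Mat N)ᵀ = (B : Mat N)) :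
    ((B * ex X * B : GL (Fin N) ℝ) : Mat N).PosDef := by
  have h1 : ((B * ex X * B : GL (Fin N) ℝ) : Mat N) =
      ((ex ((1 / 2 : ℝ) • X) * B : GL (Fin N) ℝ) : Mat N)ᴴ * ((ex ((1 / 2 : ℝ) • X) * B : GL (Fin N) ℝ) : Mat N) := by
    rw [conjTranspose_eq_transpose_of_trivial, Units.val_mul (ex ((1 / 2 : ℝ) • X)) B, transpose_mul, hB, ex_transpose, transpose_smul, hX,
      ← Units.val_mul, ← Units.val_mul, ← Units.val_mul]
    congr 1
    have h2 : ex X = ex ((1 / 2 : ℝ) • X) * ex ((1 / 2 : ℝ) • X) := by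
      rw [← ex_add_smul]
      norm_num
    rw [h2]
    simp only [mul_assoc]
  rw [h1]
  refine Matrix.PosDef.conjTranspose_mul_self _ ?_
  exact Matrix.mulVec_injective_of_isUnit (Units.isUnit _)

theorem step {G : Subgroup (GL (Fin N) ℝ)} (hG : SelfAdj G) {H : Mat N} (hs : Hᵀ = H) (hH : H ∈ lie G) (g : G) (n : ℝ) :
    ∃ k ∈ KS G, ((cj H (n / 2) ((k⁻¹ * g : G) : GL (Fin N) ℝ) : GL (Fin N) ℝ) : Mat N).PosDef := by
  obtain ⟨X, hX, hXt, k, hk, hkk, hgk⟩ := polar hG (G.mul_mem g.2 (mem_lie.1 hH n))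
  refine ⟨⟨k, hk⟩, hkk, ?_⟩
  have hB : ((ex ((-(n / 2)) • H) : GL (Fin N) ℝ) : Mat N)ᵀ = (ex ((-(n / 2)) • H) : GL (Fin N) ℝ) := by
    rw [ex_transpose, transpose_smul, hs]
  have h1 : cj H (n / 2) (((⟨k, hk⟩ : G)⁻¹ * g : G) : GL (Fin N) ℝ) =
      ex ((-(n / 2)) • H) * ex X * ex ((-(n / 2)) • H) := by
    have h2 : (((⟨k, hk⟩ : G)⁻¹ * g : G) : GL (Fin N) ℝ) = ex X * (ex (n • H))⁻¹ := by
      show k⁻¹ * (g : GL (Fin N) ℝ) = _
      rw [eq_mul_inv_iff_mul_eq, mul_assoc, hgk, inv_mul_cancel_left]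
    rw [h2]
    unfold cj
    have h3 : ex (n • H) = ex ((n / 2) • H) * ex ((n / 2) • H) := by
      rw [← ex_add_smul]
      congr 2
      ring
    rw [h3, neg_smul, ex_neg]
    group
  rw [h1]
  exact exp_posDef hXt hB

/-- Existence of the decomposition `g = k r`. -/
theorem exists_rt {G : Subgroup (GL (Fin N) ℝ)} (hG : SelfAdj G) {H : Mat N} (hs : Hᵀ = H) (hH : H ∈ lie G) (g : G) :
    ∃ r : Qg G H, g * (r : G)⁻¹ ∈ KS G ∧ ((Dh H (toPg G H r) : GL (Fin N) ℝ) : Mat N).PosDef := by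
  obtain ⟨U, h, hU1, hU2, hHU⟩ := exists_diag hs
  choose k hk hpd using fun n : ℕ => step hG hs hH g (n : ℝ)
  let u : Ultrafilter ℕ := Ultrafilter.of atTop
  have hu : (u : Filter ℕ) ≤ atTop := Ultrafilter.of_le atTop
  obtain ⟨k0, hk0, hlim⟩ := lim_of_compact (isCompact_KS hG.closed) u k hk
  have hr : Tendsto (fun n => (((k n)⁻¹ * g : G) : GL (Fin N) ℝ)) u (𝓝 ((k0⁻¹ * g : G) : GL (Fin N) ℝ)) :=
    (continuous_subtype_val.tendsto _).comp (hlim.inv.mul_const g)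
  have hA : ∀ i j, Tendsto (fun n => (Uᵀ * ((((k n)⁻¹ * g : G) : GL (Fin N) ℝ) : Mat N) * U) i j) u
      (𝓝 ((Uᵀ * (((k0⁻¹ * g : G) : GL (Fin N) ℝ) : Mat N) * U) i j)) := by
    intro i j
    have h1 : Continuous fun x : GL (Fin N) ℝ => (Uᵀ * (x : Mat N) * U) i j := by
      have h2 : Continuous fun A : Mat N => Uᵀ * A * U := by fun_prop
      exact (h2.comp Units.continuous_val).matrix_elem i j
    exact (h1.tendsto _).comp hr
  have hsym : ∀ (n : ℕ) (i j : Fin N), (Uᵀ * ((cj H ((n : ℝ) / 2) (((k n)⁻¹ * g : G) : GL (Fin N) ℝ) : GL (Fin N) ℝ) : Mat N) * U) i j =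
      (Uᵀ * ((cj H ((n : ℝ) / 2) (((k n)⁻¹ * g : G) : GL (Fin N) ℝ) : GL (Fin N) ℝ) : Mat N) * U) j i := by
    intro n i j
    have h1 : ((cj H ((n : ℝ) / 2) (((k n)⁻¹ * g : G) : GL (Fin N) ℝ) : GL (Fin N) ℝ) : Mat N)ᵀ =
        ((cj H ((n : ℝ) / 2) (((k n)⁻¹ * g : G) : GL (Fin N) ℝ) : GL (Fin N) ℝ) : Mat N) := by
      have h5 := (hpd n).1
      have h6 : _ᴴ = _ := h5
      rw [conjTranspose_eq_transpose_of_trivial] at h6
      exact h6
    have h2 : (Uᵀ * ((cj H ((n : ℝ) / 2) (((k n)⁻¹ * g : G) : GL (Fin N) ℝ) : GL (Fin N) ℝ) : Mat N) * U)ᵀ =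
        Uᵀ * ((cj H ((n : ℝ) / 2) (((k n)⁻¹ * g : G) : GL (Fin N) ℝ) : GL (Fin N) ℝ) : Mat N) * U := by
      rw [transpose_mul, transpose_mul, transpose_transpose, h1, mul_assoc]
    have h3 := congrFun (congrFun h2 j) i
    rw [transpose_apply] at h3
    exact h3
  have hexp : ∀ c : ℝ, 0 < c → Tendsto (fun n : ℕ => Real.exp ((n : ℝ) / 2 * (-c))) u (𝓝 0) := by
    intro c hc
    have h1 : Tendsto (fun n : ℕ => Real.exp ((n : ℝ) / 2 * (-c))) atTop (𝓝 0) := by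
      refine Real.tendsto_exp_atBot.comp ?_
      have h2 : Tendsto (fun n : ℕ => (n : ℝ) / 2) atTop atTop := tendsto_natCast_atTop_atTop.atTop_div_const (by norm_num)
      exact h2.atTop_mul_const_of_neg (by linarith)
    exact h1.mono_left hu
  -- the limits of the entries
  have hS : ∀ i j, h j < h i → Tendsto (fun n : ℕ => (Uᵀ * ((cj H ((n : ℝ) / 2) (((k n)⁻¹ * g : G) : GL (Fin N) ℝ) : GL (Fin N) ℝ) : Mat N) * U) i j) u
      (𝓝 0) := by
    intro i j hij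
    have h1 := (hexp (h i - h j) (by linarith)).mul (hA i j)
    rw [zero_mul] at h1
    refine h1.congr fun n => ?_
    rw [cj_coe hU1 hU2 hHU, neg_sub]
  have hS' : ∀ i j, h i < h j → Tendsto (fun n : ℕ => (Uᵀ * ((cj H ((n : ℝ) / 2) (((k n)⁻¹ * g : G) : GL (Fin N) ℝ) : GL (Fin N) ℝ) : Mat N) * U) i j) u
      (𝓝 0) := by
    intro i j hij
    refine (hS j i hij).congr fun n => ?_
    exact hsym n j i
  have hz : ∀ i j, h i < h j → (Uᵀ * (((k0⁻¹ * g : G) : GL (Fin N) ℝ) : Mat N) * U) i j = 0 := by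
    intro i j hij
    have h1 := (hexp (h j - h i) (by linarith)).mul (hS' i j hij)
    rw [zero_mul] at h1
    refine tendsto_nhds_unique ((hA i j).congr fun n => ?_) h1
    rw [cj_coe hU1 hU2 hHU, ← mul_assoc, ← Real.exp_add]
    have e : (n : ℝ) / 2 * (-(h j - h i)) + (n : ℝ) / 2 * (h j - h i) = 0 := by ring
    rw [e, Real.exp_zero, one_mul]
  have hmem : ((k0⁻¹ * g : G) : GL (Fin N) ℝ) ∈ Pg H := (mem_Pg_iff hU1 hU2 hHU).2 hz
  let r : Qg G H := ⟨k0⁻¹ * g, Subgroup.mem_subgroupOf.2 hmem⟩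
  refine ⟨r, ?_, ?_⟩
  · have h1 : g * (r : G)⁻¹ = k0 := by
      show g * (k0⁻¹ * g)⁻¹ = k0
      group
    rw [h1]
    exact hk0
  · have h1 : Tendsto (fun n : ℕ => Uᵀ * ((cj H ((n : ℝ) / 2) (((k n)⁻¹ * g : G) : GL (Fin N) ℝ) : GL (Fin N) ℝ) : Mat N) * U) u
        (𝓝 (bd h (Uᵀ * (((k0⁻¹ * g : G) : GL (Fin N) ℝ) : Mat N) * U))) := by
      refine tendsto_pi_nhds.2 fun i => tendsto_pi_nhds.2 fun j => ?_
      show Tendsto _ _ (𝓝 (if h i = h j then _ else _))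
      rcases lt_trichotomy (h i) (h j) with hij | hij | hij
      · rw [if_neg hij.ne]
        exact hS' i j hij
      · rw [if_pos hij]
        refine (hA i j).congr fun n => ?_
        rw [cj_coe hU1 hU2 hHU, hij, sub_self, mul_zero, Real.exp_zero, one_mul]
      · rw [if_neg hij.ne']
        exact hS i j hij
    have h2 : Continuous fun A : Mat N => U * A * Uᵀ := by fun_prop
    have h3 := (h2.tendsto _).comp h1
    have h4 : Tendsto (fun n : ℕ => ((cj H ((n : ℝ) / 2) (((k n)⁻¹ * g : G) : GL (Fin N) ℝ) : GL (Fin N) ℝ) : Mat N)) u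
        (𝓝 ((Dh H (toPg G H r) : GL (Fin N) ℝ) : Mat N)) := by
      rw [Dh_coe hU1 hU2 hHU]
      refine h3.congr fun n => ?_
      exact back hU2 _
    exact (posSemidef_of_tendsto hpd h4).posDef_iff_isUnit.2 (Units.isUnit _)

/-! ## Uniqueness -/

theorem rt_unique {H : Mat N} (hs : Hᵀ = H) {r r' : Pg H}
    (ho : (((r' * r⁻¹ : Pg H) : GL (Fin N) ℝ) : Mat N)ᵀ * (((r' * r⁻¹ : Pg H) : GL (Fin N) ℝ) : Mat N) = 1)
    (h : ((Dh H r : GL (Fin N) ℝ) : Mat N).PosDef) (h' : ((Dh H r' : GL (Fin N) ℝ) : Mat N).PosDef) : r = r' := by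
  have h1 : Dh H (r' * r⁻¹) = ((r' * r⁻¹ : Pg H) : GL (Fin N) ℝ) :=
    Dh_of_commute _ (orth_commute hs (r' * r⁻¹ : Pg H).2 ho)
  have h2 : Dh H r' = ((r' * r⁻¹ : Pg H) : GL (Fin N) ℝ) * Dh H r := by
    rw [← h1, ← map_mul, inv_mul_cancel_right]
  have e : ((Dh H r : GL (Fin N) ℝ) : Mat N)ᵀ = ((Dh H r : GL (Fin N) ℝ) : Mat N) := by
    have h6 : _ᴴ = _ := h.1
    rw [conjTranspose_eq_transpose_of_trivial] at h6
    exact h6
  have e' : ((Dh H r' : GL (Fin N) ℝ) : Mat N)ᵀ = ((Dh H r' : GL (Fin N) ℝ) : Mat N) := by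
    have h6 : _ᴴ = _ := h'.1
    rw [conjTranspose_eq_transpose_of_trivial] at h6
    exact h6
  have h3 : ((Dh H r' : GL (Fin N) ℝ) : Mat N) * ((Dh H r' : GL (Fin N) ℝ) : Mat N) =
      ((Dh H r : GL (Fin N) ℝ) : Mat N) * ((Dh H r : GL (Fin N) ℝ) : Mat N) := by
    calc ((Dh H r' : GL (Fin N) ℝ) : Mat N) * ((Dh H r' : GL (Fin N) ℝ) : Mat N)
        = ((Dh H r' : GL (Fin N) ℝ) : Mat N)ᵀ * ((Dh H r' : GL (Fin N) ℝ) : Mat N) := by rw [e']
      _ = ((Dh H r : GL (Fin N) ℝ) : Mat N)ᵀ * ((((r' * r⁻¹ : Pg H) : GL (Fin N) ℝ) : Mat N)ᵀ *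
            (((r' * r⁻¹ : Pg H) : GL (Fin N) ℝ) : Mat N)) * ((Dh H r : GL (Fin N) ℝ) : Mat N) := by
          rw [h2, Units.val_mul, transpose_mul]
          simp only [mul_assoc]
      _ = _ := by rw [ho, mul_one, e]
  have h4 : Dh H r' = Dh H r := Units.ext (pd_uniq h' h h3)
  rw [h4] at h2
  have h5 : ((r' * r⁻¹ : Pg H) : GL (Fin N) ℝ) = 1 := by
    have h6 := congrArg (fun x => x * (Dh H r)⁻¹) h2
    simp only [mul_inv_cancel, mul_inv_cancel_right] at h6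
    exact h6.symm
  have h6 : r' * r⁻¹ = 1 := Subtype.ext h5
  exact (mul_inv_eq_one.1 h6).symm

section rt

variable {G : Subgroup (GL (Fin N) ℝ)} (hG : SelfAdj G) {H : Mat N} (hs : Hᵀ = H) (hH : H ∈ lie G)

/-- The component in the parabolic subgroup. -/
noncomputable def rt (g : G) : Qg G H := (exists_rt hG hs hH g).choose

theorem rt_mem (g : G) : g * ((rt hG hs hH g : Qg G H) : G)⁻¹ ∈ KS G := (exists_rt hG hs hH g).choose_spec.1

theorem rt_posDef (g : G) : ((Dh H (toPg G H (rt hG hs hH g)) : GL (Fin N) ℝ) : Mat N).PosDef :=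
  (exists_rt hG hs hH g).choose_spec.2

theorem rt_eq {g : G} {r : Qg G H} (h1 : g * (r : G)⁻¹ ∈ KS G) (h2 : ((Dh H (toPg G H r) : GL (Fin N) ℝ) : Mat N).PosDef) :
    rt hG hs hH g = r := by
  have h3 : ((rt hG hs hH g : Qg G H) : G) * (r : G)⁻¹ ∈ KS G := by
    have h4 := (KS G).mul_mem ((KS G).inv_mem (rt_mem hG hs hH g)) h1
    have h5 : (g * ((rt hG hs hH g : Qg G H) : G)⁻¹)⁻¹ * (g * (r : G)⁻¹) = ((rt hG hs hH g : Qg G H) : G) * (r : G)⁻¹ := by group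
    rw [h5] at h4
    exact h4
  have h4 : toPg G H r = toPg G H (rt hG hs hH g) := rt_unique hs h3 h2 (rt_posDef hG hs hH g)
  have h5 : (((r : Qg G H) : G) : GL (Fin N) ℝ) = (((rt hG hs hH g : Qg G H) : G) : GL (Fin N) ℝ) :=
    congrArg (fun x : Pg H => (x : GL (Fin N) ℝ)) h4
  exact Subtype.ext (Subtype.ext h5.symm)

theorem rt_mul_left {k : G} (hk : k ∈ KS G) (g : G) : rt hG hs hH (k * g) = rt hG hs hH g := by
  refine rt_eq hG hs hH ?_ (rt_posDef hG hs hH g)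
  rw [mul_assoc]
  exact (KS G).mul_mem hk (rt_mem hG hs hH g)

theorem rt_one : rt hG hs hH 1 = 1 := by
  refine rt_eq hG hs hH ?_ ?_
  · have h1 : (1 : G) * ((1 : Qg G H) : G)⁻¹ = 1 := by
      rw [Subgroup.coe_one, inv_one, mul_one]
    rw [h1]
    exact (KS G).one_mem
  · rw [map_one, map_one, Units.val_one]
    exact Matrix.PosDef.one

theorem rt_of_mem {k : G} (hk : k ∈ KS G) : rt hG hs hH k = 1 := by
  have h := rt_mul_left hG hs hH hk 1
  rw [mul_one] at h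
  rw [h, rt_one]

theorem rt_mul_right (g : G) (q : Qg G H) : rt hG hs hH (g * q) = rt hG hs hH (((rt hG hs hH g * q : Qg G H)) : G) := by
  have h : g * (q : G) = (g * ((rt hG hs hH g : Qg G H) : G)⁻¹) * (((rt hG hs hH g * q : Qg G H)) : G) := by
    rw [Subgroup.coe_mul]
    group
  rw [h, rt_mul_left hG hs hH (rt_mem hG hs hH g)]

/-- `rt q = κ(q)⁻¹ q` for `q` in the parabolic subgroup, where `κ(q)` is an orthogonal element which commutes with `H` -/
theorem rt_Q (q : Qg G H) : ∃ k : Qg G H, (k : G) ∈ KS G ∧ q = k * rt hG hs hH (q : G) := by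
  refine ⟨q * (rt hG hs hH (q : G))⁻¹, ?_, by rw [inv_mul_cancel_right]⟩
  exact rt_mem hG hs hH (q : G)

theorem continuous_rt : Continuous (rt hG hs hH) := by
  rw [continuous_iff_ultrafilter]
  intro g u hu
  obtain ⟨k, hk, hlim⟩ := lim_of_compact (isCompact_KS hG.closed) u (fun x : G => x * ((rt hG hs hH x : Qg G H) : G)⁻¹)
    (fun x => rt_mem hG hs hH x)
  have h1 : Tendsto (fun x : G => ((rt hG hs hH x : Qg G H) : G)) u (𝓝 (k⁻¹ * g)) := by
    have h2 : Tendsto (fun x : G => (x * ((rt hG hs hH x : Qg G H) : G)⁻¹)⁻¹ * x) u (𝓝 (k⁻¹ * g)) := hlim.inv.mul hu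
    refine h2.congr fun x => ?_
    group
  have h2 : k⁻¹ * g ∈ Qg G H :=
    (isClosed_Qg G hs).mem_of_tendsto h1 (Eventually.of_forall fun x => (rt hG hs hH x).2)
  have h3 : Tendsto (fun x : G => rt hG hs hH x) u (𝓝 (⟨k⁻¹ * g, h2⟩ : Qg G H)) := by
    rw [tendsto_subtype_rng]
    exact h1
  have h4 : rt hG hs hH g = ⟨k⁻¹ * g, h2⟩ := by
    refine rt_eq hG hs hH ?_ ?_
    · have h5 : g * (((⟨k⁻¹ * g, h2⟩ : Qg G H)) : G)⁻¹ = k := by
        show g * (k⁻¹ * g)⁻¹ = k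
        group
      rw [h5]
      exact hk
    · have h5 : Continuous fun q : Qg G H => ((Dh H (toPg G H q) : GL (Fin N) ℝ) : Mat N) :=
        Units.continuous_val.comp ((continuous_Dh hs).comp (continuous_toPg G H))
      have h6 := (h5.tendsto _).comp h3
      exact (posSemidef_of_tendsto (fun x => rt_posDef hG hs hH x) h6).posDef_iff_isUnit.2 (Units.isUnit _)
  rw [h4]
  exact h3

/-- The decomposition `G = K Q` with a block `nb : Q → 𝕊`. -/
noncomputable def geoP {𝕊 : Type} [Group 𝕊] [TopologicalSpace 𝕊] (nb : Qg G H →* 𝕊) (nbc : Continuous nb) (nbs : Function.Surjective nb)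
    (𝕂 : Subgroup 𝕊) (hK : ∀ q : Qg G H, (q : G) ∈ KS G → nb q ∈ 𝕂) : Pool.Agent.Helper35.FP.Geo G 𝕊 𝕂 where
  Q := Qg G H
  nb := nb
  nbc := nbc
  nbs := nbs
  K := KS G
  Kc := isCompact_KS hG.closed
  r := rt hG hs hH
  rc := continuous_rt hG hs hH
  kr := rt_mem hG hs hH
  rK := by
    intro g hg
    rw [rt_of_mem hG hs hH hg, map_one]
    exact 𝕂.one_mem
  KK := by
    intro g hg g' hg' q hq
    refine hK q ?_
    have h1 : (q : G) = g'⁻¹ * g := by rw [hq, inv_mul_cancel_left]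
    rw [h1]
    exact (KS G).mul_mem ((KS G).inv_mem hg') hg

end rt

end Pool.Agent.Helper46.FQ
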