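import Pool.Agent.Helper46.FQ.LemC

/-!
# Project FQ (MP_0f6f3f_an), Lemma C: the sizes of the central component

`size_lim`: if `g = x l y` in the cell of the node `u`, then `l = k₁ ea c k₂` with `k₁, k₂ ∈ K` in the centraliser, `c i ≥ 0` for `i ≠ u`, and the gaps of `ea (s e_u) g ea (t e_u)`, minus `s + t` at the node `u`, converge to `c`.
`size_eq`: for `g = σ(y₁) h σ(y₂)⁻¹`, `y` good in the sense of Lemma C, `c` is the vector of the gaps of `h` up to the error `C`.
-/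

set_option autoImplicit false
set_option linter.unusedSectionVars false

open MeasureTheory Filter Topology Matrix

namespace Pool.Agent.Helper46.FQ

open Pool.Agent.Helper84.GDL

open scoped Matrix.Norms.L2Operator ENNReal

variable {𝔾 ι : Type} [Group 𝔾] [TopologicalSpace 𝔾] [IsTopologicalGroup 𝔾] [Fintype ι] [DecidableEq ι] (D : GD 𝔾 ι)

theorem tw_one' (l : ι) : D.tw l 1 = 0 := by
  unfold GD.tw
  rw [D.mu_K D.K.one_mem]
  simp

theorem tendsto_tw {F : Type} {f : Filter F} {g : F → 𝔾} (hg : Tendsto g f (𝓝 1)) (l : ι) : Tendsto (fun x => D.tw l (g x)) f (𝓝 0) := by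
  have h1 : Tendsto (fun x => ‖D.rho l (g x)‖) f (𝓝 1) := by
    have h2 : Tendsto (fun x => ‖D.rho l (g x)‖) f (𝓝 ‖D.rho l 1‖) := (((D.rho_cont l).norm).tendsto 1).comp hg
    rw [D.norm_rho, tw_one', Real.exp_zero] at h2
    exact h2
  have h3 := (Real.continuousAt_log one_ne_zero).tendsto.comp h1
  rw [Real.log_one] at h3
  exact h3.congr fun x => (D.tw_eq l (g x)).symm

/-- Small perturbations on both sides. -/
theorem mu_pert {F : Type} {f : Filter F} {A H B : F → 𝔾} (hA : Tendsto A f (𝓝 1)) (hB : Tendsto B f (𝓝 1)) (i : ι) :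
    Tendsto (fun x => D.mu (A x * H x * B x) i - D.mu (H x) i) f (𝓝 0) := by
  have hA' : Tendsto (fun x => (A x)⁻¹) f (𝓝 1) := by
    have := hA.inv
    rwa [inv_one] at this
  have hB' : Tendsto (fun x => (B x)⁻¹) f (𝓝 1) := by
    have := hB.inv
    rwa [inv_one] at this
  have h1 : ∀ l, Tendsto (fun x => D.tw l (A x * H x * B x) - D.tw l (H x)) f (𝓝 0) := by
    intro l
    have h2 : Tendsto (fun x => D.tw l (A x) + D.tw l (A x)⁻¹ + D.tw l (B x) + D.tw l (B x)⁻¹) f (𝓝 0) := by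
      have h3 := (((tendsto_tw D hA l).add (tendsto_tw D hA' l)).add (tendsto_tw D hB l)).add (tendsto_tw D hB' l)
      simpa using h3
    exact squeeze_zero_norm (fun x => by
      rw [Real.norm_eq_abs]
      exact D.tw_sub_le l (A x) (H x) (B x)) h2
  have h2 : Tendsto (fun x => ∑ l, D.C i l * (D.tw l (A x * H x * B x) - D.tw l (H x))) f (𝓝 (∑ l, D.C i l * 0)) :=
    tendsto_finsetSum _ fun l _ => (h1 l).const_mul _
  simp only [mul_zero, Finset.sum_const_zero] at h2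
  exact h2.congr fun x => (D.mu_sub _ _ i).symm

/-- `e_u` times a number -/
theorem ea_single_add (u : ι) (s t : ℝ) : D.ea (Pi.single u (s + t)) = D.ea (Pi.single u s) * D.ea (Pi.single u t) := by
  rw [← D.ea_add, Pi.single_add]

theorem ea_single_neg (u : ι) (s : ℝ) : D.ea (Pi.single u (-s)) = (D.ea (Pi.single u s))⁻¹ := by
  rw [← D.ea_neg, Pi.single_neg]

/-- **(C1)** The sizes of the central component are the limits of the gaps. -/
theorem size_lim (u : ι) {g x l y : 𝔾} (hg : g = x * l * y)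
    (hx : Tendsto (fun t : ℝ => D.ea (Pi.single u t) * x * D.ea (Pi.single u (-t))) atTop (𝓝 1))
    (hl : ∀ t : ℝ, l * D.ea (Pi.single u t) = D.ea (Pi.single u t) * l)
    (hy : Tendsto (fun t : ℝ => D.ea (Pi.single u (-t)) * y * D.ea (Pi.single u t)) atTop (𝓝 1)) :
    ∃ k₁ ∈ D.K, ∃ k₂ ∈ D.K, ∃ c : ι → ℝ, (∀ i, i ≠ u → 0 ≤ c i) ∧ l = k₁ * D.ea c * k₂ ∧
      (∀ t : ℝ, k₁ * D.ea (Pi.single u t) = D.ea (Pi.single u t) * k₁ ∧ k₂ * D.ea (Pi.single u t) = D.ea (Pi.single u t) * k₂) ∧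
      ∀ i, Tendsto (fun p : ℝ × ℝ => D.mu (D.ea (Pi.single u p.1) * g * D.ea (Pi.single u p.2)) i - Pi.single (M := fun _ => ℝ) u (p.1 + p.2) i)
        atTop (𝓝 (c i)) := by
  obtain ⟨k₁, hk₁, k₂, hk₂, c, hc, hlk, hcomm⟩ := D.lev {u} l fun c hc => by
    have e : c = Pi.single u (c u) := by
      funext i
      by_cases hi : i = u
      · rw [hi, Pi.single_eq_same]
      · rw [Pi.single_eq_of_ne hi]
        exact hc i (by simpa using hi)
    rw [e]
    exact hl _
  have hcomm' : ∀ t : ℝ, k₁ * D.ea (Pi.single u t) = D.ea (Pi.single u t) * k₁ ∧ k₂ * D.ea (Pi.single u t) = D.ea (Pi.single u t) * k₂ :=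
    fun t => hcomm _ fun i hi => Pi.single_eq_of_ne (by simpa using hi) _
  refine ⟨k₁, hk₁, k₂, hk₂, c, fun i hi => hc i (by simpa using hi), hlk, hcomm', fun i => ?_⟩
  -- the middle part
  have hmid : ∀ s t : ℝ, D.ea (Pi.single u s) * l * D.ea (Pi.single u t) = k₁ * D.ea (c + Pi.single u (s + t)) * k₂ := by
    intro s t
    calc D.ea (Pi.single u s) * l * D.ea (Pi.single u t) = (D.ea (Pi.single u s) * k₁) * D.ea c * (k₂ * D.ea (Pi.single u t)) := by
          rw [hlk]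
          simp only [mul_assoc]
      _ = k₁ * (D.ea (Pi.single u s) * D.ea c * D.ea (Pi.single u t)) * k₂ := by
          rw [← (hcomm' s).1, (hcomm' t).2]
          simp only [mul_assoc]
      _ = _ := by
          rw [D.ea_comm (Pi.single u s) c, mul_assoc (D.ea c), ← ea_single_add, ← D.ea_add]
  have hmu : ∀ᶠ p : ℝ × ℝ in atTop, D.mu (D.ea (Pi.single u p.1) * l * D.ea (Pi.single u p.2)) i = c i + Pi.single (M := fun _ => ℝ) u (p.1 + p.2) i := by
    filter_upwards [eventually_ge_atTop ((|c u|, 0) : ℝ × ℝ)] with p hp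
    obtain ⟨hp1, hp2⟩ := Prod.mk_le_mk.1 hp
    rw [hmid, D.mu_kak hk₁ hk₂]
    · rfl
    · intro i'
      show 0 ≤ c i' + Pi.single (M := fun _ => ℝ) u (p.1 + p.2) i'
      by_cases hi : i' = u
      · rw [hi, Pi.single_eq_same]
        have h1 := neg_abs_le (c u)
        linarith
      · rw [Pi.single_eq_of_ne hi, add_zero]
        exact hc i' (by simpa using hi)
  have hfst : Tendsto (fun p : ℝ × ℝ => p.1) atTop atTop := tendsto_fst.mono_left (by rw [← prod_atTop_atTop_eq])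
  have hsnd : Tendsto (fun p : ℝ × ℝ => p.2) atTop atTop := tendsto_snd.mono_left (by rw [← prod_atTop_atTop_eq])
  have hX : Tendsto (fun p : ℝ × ℝ => D.ea (Pi.single u p.1) * x * D.ea (Pi.single u (-p.1))) atTop (𝓝 1) := hx.comp hfst
  have hY : Tendsto (fun p : ℝ × ℝ => D.ea (Pi.single u (-p.2)) * y * D.ea (Pi.single u p.2)) atTop (𝓝 1) := hy.comp hsnd
  have h1 := mu_pert D (H := fun p : ℝ × ℝ => D.ea (Pi.single u p.1) * l * D.ea (Pi.single u p.2)) hX hY i
  have h2 : Tendsto (fun p : ℝ × ℝ => (D.mu (D.ea (Pi.single u p.1) * x * D.ea (Pi.single u (-p.1)) *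
      (D.ea (Pi.single u p.1) * l * D.ea (Pi.single u p.2)) * (D.ea (Pi.single u (-p.2)) * y * D.ea (Pi.single u p.2))) i -
      D.mu (D.ea (Pi.single u p.1) * l * D.ea (Pi.single u p.2)) i) + c i) atTop (𝓝 (0 + c i)) := h1.add_const _
  rw [zero_add] at h2
  refine h2.congr' ?_
  filter_upwards [hmu] with p hp
  have e : D.ea (Pi.single u p.1) * x * D.ea (Pi.single u (-p.1)) * (D.ea (Pi.single u p.1) * l * D.ea (Pi.single u p.2)) *
      (D.ea (Pi.single u (-p.2)) * y * D.ea (Pi.single u p.2)) = D.ea (Pi.single u p.1) * g * D.ea (Pi.single u p.2) := by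
    rw [ea_single_neg, ea_single_neg, hg]
    group
  rw [e, hp]
  ring

/-- **(C3)** The sizes of the central component of `σ(y₁) h σ(y₂)⁻¹`, `y` good. -/
theorem size_eq {X : Type} {σ : X → 𝔾} {C : ℝ} {h : 𝔾} {y : X × X} (hy : LCgood D σ C h y) (u : ι) {c : ι → ℝ}
    (hc : ∀ i, Tendsto (fun p : ℝ × ℝ => D.mu (D.ea (Pi.single u p.1) * (σ y.1 * h * (σ y.2)⁻¹) * D.ea (Pi.single u p.2)) i -
      Pi.single (M := fun _ => ℝ) u (p.1 + p.2) i) atTop (𝓝 (c i))) (i : ι) : |c i - D.mu h i| ≤ C := by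
  have h1 : Tendsto (fun p : ℝ × ℝ => |D.mu (D.ea (Pi.single u p.1) * (σ y.1 * h * (σ y.2)⁻¹) * D.ea (Pi.single u p.2)) i -
      Pi.single (M := fun _ => ℝ) u (p.1 + p.2) i - D.mu h i|) atTop (𝓝 |c i - D.mu h i|) := ((hc i).sub_const _).abs
  refine le_of_tendsto h1 ?_
  filter_upwards [eventually_ge_atTop ((0, 0) : ℝ × ℝ)] with p hp
  obtain ⟨hp1, hp2⟩ := Prod.mk_le_mk.1 hp
  have h2 := hy (Pi.single u p.1) (Pi.single u p.2) (fun i => by
    by_cases hi : i = u
    · rw [hi, Pi.single_eq_same]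
      exact hp1
    · rw [Pi.single_eq_of_ne hi]) (fun i => by
    by_cases hi : i = u
    · rw [hi, Pi.single_eq_same]
      exact hp2
    · rw [Pi.single_eq_of_ne hi]) i
  have e : (Pi.single (M := fun _ => ℝ) u (p.1 + p.2) i : ℝ) = (Pi.single u p.1 : ι → ℝ) i + (Pi.single u p.2 : ι → ℝ) i := by
    rw [Pi.single_add]
    rfl
  rw [e]
  have e2 : D.mu (D.ea (Pi.single u p.1) * (σ y.1 * h * (σ y.2)⁻¹) * D.ea (Pi.single u p.2)) i -
      ((Pi.single u p.1 : ι → ℝ) i + (Pi.single u p.2 : ι → ℝ) i) - D.mu h i =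
      D.mu (D.ea (Pi.single u p.1) * (σ y.1 * h * (σ y.2)⁻¹) * D.ea (Pi.single u p.2)) i -
      (D.mu h i + (Pi.single u p.1 : ι → ℝ) i + (Pi.single u p.2 : ι → ℝ) i) := by ring
  rw [e2]
  exact h2

end Pool.Agent.Helper46.FQ
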